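import Pool.Agent.H90.DC.Defs

/-!
# Project DE (MP_64e98b_an, De Gregorio, note 1895 of helper44): class (E); definitions and interface

Class (E): `w0` smooth, `2π`-periodic, odd, `w0 ≤ 0` on `[0,p]`, `w0 ≥ 0` on `[p,π]`, `0 < p < π`.

Functionals (dynamic side): with `l = X t p`, `W = w(t,·)`,
* `E(t) = EI p π - EI 0 p + (MI 0 p + MI p π)/2` (renormalised `∫ w_x²/|w| + |w|/2` over `(0,π)`),
  `E' = EFE W l`;
* `T(t) = JI p 0 p + JI p p π - (MI 0 p + MI p π)/4` (weight `cot²/4` with base `l` on both arcs),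
  `T' = TF W l`;
* `Y_N(t) = JI 0 0 p`, `Y_P(t) = JI π p π` (weight `cot²/4 + 1/4`, bases `0`, `π`),
  `Y_N' = - BN W l`, `Y_P' = - BP W l`.
STATIC INEQUALITY (directory H44/DE): there is `K ≥ 0` with, for all `l`, `W ∈ C²` with `OddE W l`,
  `9/8 * EFE W l ≤ TF W l + K * (BN W l + BP W l)`.
DYNAMICS (this directory): `T ≤ EE + C (1+Λ)`, `Y_N, Y_P ≥ -C (1+Λ)`, so `E ≤ C (1 + Λ)`, Gronwall.
-/

set_option autoImplicit false
open Real Set MeasureTheory Filter Topology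

namespace Pool.Agent.H90.DE
open Pool.Agent.H45.FL Pool.Agent.H51.DG Pool.Agent.H45.DY Pool.Agent.H90.DC

/-- class (E) of initial data -/
structure GoodE (w0 : ℝ → ℝ) (p : ℝ) : Prop where
  smooth : ContDiff ℝ ((⊤ : ℕ∞) : WithTop ℕ∞) w0
  per : Function.Periodic w0 (2 * π)
  odd : ∀ x, w0 (-x) = -w0 x
  p0 : 0 < p
  p1 : p < π
  neg : ∀ x ∈ Icc (0:ℝ) p, w0 x ≤ 0
  pos : ∀ x ∈ Icc p π, 0 ≤ w0 x

/-- static sign structure -/
structure OddE (W : ℝ → ℝ) (l : ℝ) : Prop where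
  per : Function.Periodic W (2 * π)
  odd : ∀ x, W (-x) = -W x
  l0 : 0 < l
  l1 : l < π
  neg : ∀ x ∈ Icc (0:ℝ) l, W x ≤ 0
  pos : ∀ x ∈ Icc l π, 0 ≤ W x

/-- the dynamics of class (E) -/
structure DynE (w u : ℝ × ℝ → ℝ) (X : ℝ → ℝ → ℝ) (p T : ℝ) : Prop where
  cs : CSol w u
  fl : Flow u X
  p0 : 0 < p
  p1 : p < π
  neg : ∀ x ∈ Icc (0:ℝ) p, w (0, x) ≤ 0
  pos : ∀ x ∈ Icc p π, 0 ≤ w (0, x)
  hT : 0 ≤ T
  hu : ∀ t ∈ Icc 0 T, ∀ x, px u (t, x) = HT (fun y => w (t, y)) x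
  ow : ∀ t x, w (t, -x) = -w (t, x)
  ou : ∀ t x, u (t, -x) = -u (t, x)

/-- the weight `cot²(ξ/2)/4` -/
noncomputable def Pc (ξ : ℝ) : ℝ := ct ξ ^ 2 / 4

/-- the weight `cot²(ξ/2)/4 + 1/4 = 1/(4 sin²(ξ/2))` -/
noncomputable def Pk (ξ : ℝ) : ℝ := ct ξ ^ 2 / 4 + 1 / 4

/-- time derivative of `∫ |W| cot²((x-l)/2)/4` over `(0,π)`, the base point `l` moves with the velocity;
`dPh` is the derivative of both weights -/
noncomputable def TF (W : ℝ → ℝ) (l : ℝ) : ℝ :=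
  (∫ x in (0:ℝ)..l, -W x * (2 * HT W x * Pc (l - x) - (UU W x - UU W l) * dPh (l - x))) +
    ∫ x in l..π, W x * (2 * HT W x * Pc (x - l) + (UU W x - UU W l) * dPh (x - l))

/-- time derivative of the energy `∫ W'²/|W| + |W|/2` over `(0,π)` -/
noncomputable def EFE (W : ℝ → ℝ) (l : ℝ) : ℝ :=
  ((2 * ∫ x in l..π, deriv W x * HT (deriv W) x) - 2 * ∫ x in (0:ℝ)..l, deriv W x * HT (deriv W) x) +
    ((∫ x in l..π, W x * HT W x) - ∫ x in (0:ℝ)..l, W x * HT W x)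

/-- minus the time derivative of `∫_0^l |W| / (4 sin²(x/2))` -/
noncomputable def BN (W : ℝ → ℝ) (l : ℝ) : ℝ :=
  ∫ x in (0:ℝ)..l, W x * (2 * HT W x * Pk x + UU W x * dPh x)

/-- minus the time derivative of `∫_l^π |W| / (4 cos²(x/2))` -/
noncomputable def BP (W : ℝ → ℝ) (l : ℝ) : ℝ :=
  ∫ x in l..π, -W x * (2 * HT W x * Pk (π - x) - UU W x * dPh (π - x))

end Pool.Agent.H90.DE
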