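import Pool.Agent.H90.DE.DynE
import Pool.Agent.H90.DC.HInt

/-!
# DE job D2: the Hardy inequality on the two arcs, base `p` (uses the stubs of `DynE.lean`)

* `hardyP`: `DC.hardy_int` for `v y = w0 (p + y)`, length `π - p` (`v 0 = w0 p = 0`, `v (π-p) = w0 π = 0`: odd and
  periodic), with `L y = lam u X t (p+y)`, `L' y = lma u X t (p+y)` (`lam_hasDerivAt_label`, `lma_cont`),
  `Xf y = X t (p+y) - X t p` (`Flow.hasDerivAt_label`), `Xf (π-p) = π - X t p < π`.  Substitution `α = p + y`: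
  the left side is `JI w u X p p π t` (`gI u X p t α = exp (2 lam) ph |X t α - X t p|`, `X t α > X t p`;
  `gI u X p 0 α = ph (α - p)`), integrable by `JI_integrable`; `px w (0,α) = deriv w0 α`.  See `Jlow.lean` (H45/DY)
  for both substitutions (`Jlow_R`: `α = e + ξ`, `Jlow_L`: `α = e' - ξ`).
* `hardyN`: the same for `v y = -w0 (p - y)`, length `p`, `L y = lam u X t (p-y)`, `L' y = -lma u X t (p-y)`,
  `Xf y = X t p - X t (p-y)`, `Xf p = X t p < π`; `α = p - y`: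
  `∫ (v L'² + 2 v' L') = ∫_0^p (-w0 lma² - 2 w0' lma) = -EI w u X 0 p t`.
-/

set_option autoImplicit false
open Real Set MeasureTheory Filter Topology

namespace Pool.Agent.H90.DE
open Pool.Agent.H45.FL Pool.Agent.H51.DG Pool.Agent.H45.DY Pool.Agent.H90.DC

lemma HarE_gI0 {u : ℝ × ℝ → ℝ} {X : ℝ → ℝ → ℝ} (hX : Flow u X) (z α : ℝ) :
    gI u X z 0 α = ph |α - z| := by
  unfold gI
  rw [lam_zero, hX.init, hX.init, mul_zero, Real.exp_zero, one_mul]

lemma HarE_px {w : ℝ × ℝ → ℝ} {w0 : ℝ → ℝ} (hw : ∀ x, w (0, x) = w0 x) (α : ℝ) :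
    px w (0, α) = deriv w0 α := by
  have h1 : (fun y : ℝ => w (0, y)) = w0 := funext hw
  unfold px
  simp only
  rw [h1]

lemma HarE_P {w u : ℝ × ℝ → ℝ} {X : ℝ → ℝ → ℝ} {p T : ℝ} {w0 : ℝ → ℝ}
    (h : DynE w u X p T) (hw : ∀ x, w (0, x) = w0 x) (hd : Differentiable ℝ w0) (t : ℝ) :
    IntegrableOn (fun ξ => w0 (p + ξ) * (Real.exp (2 * lam u X t (p + ξ)) *
      ph (X t (p + ξ) - X t p) - ph ξ)) (Ioo 0 (π - p)) ∧
    ∫ ξ in Ioo 0 (π - p), w0 (p + ξ) * (Real.exp (2 * lam u X t (p + ξ)) *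
      ph (X t (p + ξ) - X t p) - ph ξ) = JI w u X p p π t ∧
    ∫ ξ in Ioo 0 (π - p), (w0 (p + ξ) * lma u X t (p + ξ) ^ 2 +
      2 * deriv (fun y => w0 (p + y)) ξ * lma u X t (p + ξ)) = EI w u X p π t := by
  have hpt : ∀ ξ ∈ Ioo 0 (π - p), (fun α => |w (0, α)| * (gI u X p t α - gI u X p 0 α)) (p + ξ) =
      w0 (p + ξ) * (Real.exp (2 * lam u X t (p + ξ)) * ph (X t (p + ξ) - X t p) - ph ξ) := by
    intro ξ hξ
    have h1 := h.pos (p + ξ) ⟨by linarith [hξ.1], by linarith [hξ.2]⟩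
    have h2 := Flow.mono h.cs.vel h.fl t (show p < p + ξ by linarith [hξ.1])
    simp only
    rw [abs_of_nonneg h1, hw, HarE_gI0 h.fl]
    unfold gI
    rw [abs_of_pos (sub_pos.2 h2), add_sub_cancel_left, abs_of_pos hξ.1]
  have hpt2 : ∀ ξ ∈ Ioo 0 (π - p),
      (fun α => w (0, α) * lma u X t α ^ 2 + 2 * px w (0, α) * lma u X t α) (p + ξ) =
      w0 (p + ξ) * lma u X t (p + ξ) ^ 2 +
      2 * deriv (fun y => w0 (p + y)) ξ * lma u X t (p + ξ) := by
    intro ξ _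
    have h3 : deriv (fun y => w0 (p + y)) ξ = deriv w0 (p + ξ) :=
      ((hd (p + ξ)).hasDerivAt.comp_const_add p ξ).deriv
    simp only
    rw [hw, HarE_px hw, h3]
  have hmp := measurePreserving_add_left (volume : Measure ℝ) p
  have hme : MeasurableEmbedding (fun ξ : ℝ => p + ξ) :=
    (MeasurableEquiv.addLeft p).measurableEmbedding
  have hpre : (fun ξ : ℝ => p + ξ) ⁻¹' Ioo p π = Ioo 0 (π - p) := by
    rw [Set.preimage_const_add_Ioo, sub_self]
  have hi := JI_integrable h.cs h.fl h.arcP t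
  rw [← hmp.integrableOn_comp_preimage hme, hpre] at hi
  refine ⟨(integrableOn_congr_fun hpt measurableSet_Ioo).1 hi, ?_, ?_⟩
  · unfold JI
    have h7 := hmp.setIntegral_preimage_emb hme
      (fun α => |w (0, α)| * (gI u X p t α - gI u X p 0 α)) (Ioo p π)
    rw [hpre] at h7
    rw [← h7]
    exact (setIntegral_congr_fun measurableSet_Ioo hpt).symm
  · unfold EI
    have h7 := hmp.setIntegral_preimage_emb hme
      (fun α => w (0, α) * lma u X t α ^ 2 + 2 * px w (0, α) * lma u X t α) (Ioo p π)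
    rw [hpre] at h7
    rw [← h7]
    exact (setIntegral_congr_fun measurableSet_Ioo hpt2).symm

lemma HarE_dN {w0 : ℝ → ℝ} (hd : Differentiable ℝ w0) (p ξ : ℝ) :
    deriv (fun y => -w0 (p - y)) ξ = deriv w0 (p - ξ) := by
  have h3 := ((hd (p - ξ)).hasDerivAt.comp_const_sub p ξ).neg
  rw [neg_neg] at h3
  exact h3.deriv

lemma HarE_N {w u : ℝ × ℝ → ℝ} {X : ℝ → ℝ → ℝ} {p T : ℝ} {w0 : ℝ → ℝ}
    (h : DynE w u X p T) (hw : ∀ x, w (0, x) = w0 x) (hd : Differentiable ℝ w0) (t : ℝ) :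
    IntegrableOn (fun ξ => -w0 (p - ξ) * (Real.exp (2 * lam u X t (p - ξ)) *
      ph (X t p - X t (p - ξ)) - ph ξ)) (Ioo 0 p) ∧
    ∫ ξ in Ioo 0 p, -w0 (p - ξ) * (Real.exp (2 * lam u X t (p - ξ)) *
      ph (X t p - X t (p - ξ)) - ph ξ) = JI w u X p 0 p t ∧
    ∫ ξ in Ioo 0 p, (-w0 (p - ξ) * (-lma u X t (p - ξ)) ^ 2 +
      2 * deriv (fun y => -w0 (p - y)) ξ * (-lma u X t (p - ξ))) = -EI w u X 0 p t := by
  have hpt : ∀ ξ ∈ Ioo 0 p, (fun α => |w (0, α)| * (gI u X p t α - gI u X p 0 α)) (p - ξ) =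
      -w0 (p - ξ) * (Real.exp (2 * lam u X t (p - ξ)) * ph (X t p - X t (p - ξ)) - ph ξ) := by
    intro ξ hξ
    have h1 := h.neg (p - ξ) ⟨by linarith [hξ.2], by linarith [hξ.1]⟩
    have h2 := Flow.mono h.cs.vel h.fl t (show p - ξ < p by linarith [hξ.1])
    simp only
    rw [abs_of_nonpos h1, hw, HarE_gI0 h.fl]
    unfold gI
    rw [abs_sub_comm, abs_of_pos (sub_pos.2 h2), show p - ξ - p = -ξ by ring, abs_neg,
      abs_of_pos hξ.1]
  have hpt2 : ∀ ξ ∈ Ioo 0 p,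
      -(fun α => w (0, α) * lma u X t α ^ 2 + 2 * px w (0, α) * lma u X t α) (p - ξ) =
      -w0 (p - ξ) * (-lma u X t (p - ξ)) ^ 2 +
      2 * deriv (fun y => -w0 (p - y)) ξ * (-lma u X t (p - ξ)) := by
    intro ξ _
    simp only
    rw [hw, HarE_px hw, HarE_dN hd]
    ring
  have hmp := MeasureTheory.Measure.measurePreserving_sub_left (volume : Measure ℝ) p
  have hme : MeasurableEmbedding (fun ξ : ℝ => p - ξ) :=
    (MeasurableEquiv.subLeft p).measurableEmbedding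
  have hpre : (fun ξ : ℝ => p - ξ) ⁻¹' Ioo 0 p = Ioo 0 p := by
    rw [Set.preimage_const_sub_Ioo, sub_self, sub_zero]
  have hi := JI_integrable h.cs h.fl h.arcN t
  rw [← hmp.integrableOn_comp_preimage hme, hpre] at hi
  refine ⟨(integrableOn_congr_fun hpt measurableSet_Ioo).1 hi, ?_, ?_⟩
  · unfold JI
    have h7 := hmp.setIntegral_preimage_emb hme
      (fun α => |w (0, α)| * (gI u X p t α - gI u X p 0 α)) (Ioo 0 p)
    rw [hpre] at h7
    rw [← h7]
    exact (setIntegral_congr_fun measurableSet_Ioo hpt).symm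
  · unfold EI
    have h7 := hmp.setIntegral_preimage_emb hme
      (fun α => w (0, α) * lma u X t α ^ 2 + 2 * px w (0, α) * lma u X t α) (Ioo 0 p)
    rw [hpre] at h7
    rw [← h7, ← integral_neg]
    exact (setIntegral_congr_fun measurableSet_Ioo hpt2).symm

theorem hardyP (w0 : ℝ → ℝ) (p : ℝ) (hg : GoodE w0 p) :
    ∃ C : ℝ, 0 ≤ C ∧ ∀ (w u : ℝ × ℝ → ℝ) (X : ℝ → ℝ → ℝ) (T : ℝ), DynE w u X p T →
      (∀ x, w (0, x) = w0 x) → ∀ t ∈ Icc 0 T, ∀ Λ : ℝ, (∀ α, |lam u X t α| ≤ Λ) →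
      JI w u X p p π t ≤ EI w u X p π t + C * (1 + Λ) := by
  have hs2 : ContDiff ℝ 2 w0 := by exact_mod_cast contDiff_infty.1 hg.smooth 2
  have hd : Differentiable ℝ w0 := hg.smooth.differentiable (by simp)
  have wp : w0 p = 0 := le_antisymm (hg.neg p ⟨hg.p0.le, le_rfl⟩) (hg.pos p ⟨le_rfl, hg.p1.le⟩)
  have wpi : w0 π = 0 := by
    have h1 := hg.odd π
    have h2 := hg.per (-π)
    rw [show -π + 2 * π = π by ring] at h2
    linarith
  obtain ⟨C, hC, H⟩ := hardy_int (w0 := fun y => w0 (p + y)) (p := π - p)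
    (by linarith [hg.p1]) (by linarith [hg.p0]) (hs2.comp (contDiff_const.add contDiff_id))
    (by simp [wp]) (by simp [wpi])
    (fun x hx => hg.pos (p + x) ⟨by linarith [hx.1], by linarith [hx.2]⟩)
  refine ⟨C, hC, ?_⟩
  intro w u X T h hw t ht Λ hΛ
  obtain ⟨i1, e1, e2⟩ := HarE_P h hw hd t
  have hlc : Continuous fun p : ℝ × ℝ => lma u X p.1 p.2 := lma_cont h.cs.vel h.fl
  have K := H (fun y => lam u X t (p + y)) (fun y => lma u X t (p + y))
    (fun y => X t (p + y) - X t p) Λ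
    (fun y => (lam_hasDerivAt_label h.cs.vel h.fl t (p + y) ht.1).comp_const_add p y)
    (hlc.comp (continuous_const.prodMk (continuous_const.add continuous_id)))
    (fun y => ((Flow.hasDerivAt_label h.cs.vel h.fl t (p + y) ht.1).comp_const_add p y).sub_const _)
    (by simp)
    (by
      rw [add_sub_cancel, h.Xpi]
      linarith [(h.Xp t).1])
    (fun y _ => hΛ (p + y)) i1
  rw [e1, e2] at K
  exact K

theorem hardyN (w0 : ℝ → ℝ) (p : ℝ) (hg : GoodE w0 p) :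
    ∃ C : ℝ, 0 ≤ C ∧ ∀ (w u : ℝ × ℝ → ℝ) (X : ℝ → ℝ → ℝ) (T : ℝ), DynE w u X p T →
      (∀ x, w (0, x) = w0 x) → ∀ t ∈ Icc 0 T, ∀ Λ : ℝ, (∀ α, |lam u X t α| ≤ Λ) →
      JI w u X p 0 p t ≤ -EI w u X 0 p t + C * (1 + Λ) := by
  have hs2 : ContDiff ℝ 2 w0 := by exact_mod_cast contDiff_infty.1 hg.smooth 2
  have hd : Differentiable ℝ w0 := hg.smooth.differentiable (by simp)
  have wp : w0 p = 0 := le_antisymm (hg.neg p ⟨hg.p0.le, le_rfl⟩) (hg.pos p ⟨le_rfl, hg.p1.le⟩)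
  have w00 : w0 0 = 0 := by
    have h1 := hg.odd 0
    rw [neg_zero] at h1
    linarith
  obtain ⟨C, hC, H⟩ := hardy_int (w0 := fun y => -w0 (p - y)) (p := p)
    hg.p0 hg.p1 (hs2.comp (contDiff_const.sub contDiff_id)).neg
    (by simp [wp]) (by simp [w00])
    (fun x hx => by
      have := hg.neg (p - x) ⟨by linarith [hx.2], by linarith [hx.1]⟩
      linarith)
  refine ⟨C, hC, ?_⟩
  intro w u X T h hw t ht Λ hΛ
  obtain ⟨i1, e1, e2⟩ := HarE_N h hw hd t
  have hlc : Continuous fun p : ℝ × ℝ => lma u X p.1 p.2 := lma_cont h.cs.vel h.fl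
  have K := H (fun y => lam u X t (p - y)) (fun y => -lma u X t (p - y))
    (fun y => X t p - X t (p - y)) Λ
    (fun y => (lam_hasDerivAt_label h.cs.vel h.fl t (p - y) ht.1).comp_const_sub p y)
    (hlc.comp (continuous_const.prodMk (continuous_const.sub continuous_id))).neg
    (fun y => by
      have h5 := ((Flow.hasDerivAt_label h.cs.vel h.fl t (p - y) ht.1).comp_const_sub
        p y).const_sub (X t p)
      rw [neg_neg] at h5
      exact h5)
    (by simp)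
    (by
      rw [sub_self, h.X0]
      linarith [(h.Xp t).2])
    (fun y _ => hΛ (p - y)) i1
  rw [e1, e2] at K
  exact K

end Pool.Agent.H90.DE
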