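import Pool.Agent.H90.DE.DynE
import Pool.Agent.H45.DY.LB

/-!
# DE job D3: lower bounds of the budgets (uses the stubs of `DynE.lean`)

`LB` (H45/DY/LB.lean) gives `-∫_0^Λ' a (y'² ph(y) - ph) ≤ 2 a'(0) log (y' 0) + C (1 + Z)` if
`VV ξ - Z ≤ VV (y ξ)` on `(0,Λ')`.
* `VV_low`: if `0 < ξ < π`, `0 < y < π` and `ξ e^{-Λ} ≤ y` then `VV ξ - (Λ + 1) ≤ VV y`: `VV = log tan(·/4)`,
  `tan (y/4) ≥ y/4 ≥ ξ e^{-Λ}/4`, `tan (ξ/4) ≤ ξ/π` (convexity of `tan` on `[0,π/4]`, or any bound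
  `tan x ≤ 2 x` for `0 ≤ x ≤ π/4`; the constant `1` may be replaced by `2`), `log (4/π) ≤ 1`.
* `lowN`: `a ξ = -w0 ξ` on `[0,p]`, `y = X t`, `y' = exp (lam u X t ·)` (`Flow.hasDerivAt_label`, `lam_cont`),
  `X t ξ = ∫_0^ξ e^{lam} ≥ ξ e^{-Λ}` (mean value), `X t p < π`; `log (y' 0) = lam u X t 0`, `|..| ≤ Λ`;
  the integral is `JI w u X 0 0 p t` (`gI u X 0 t α = exp (2 lam) ph (X t α)`, `gI u X 0 0 α = ph α`), integrable by
  `JI_integrable` (see `Jlow_R` in H45/DY/Jlow.lean with `e = 0`).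
* `lowP`: `a ξ = w0 (π - ξ)` on `[0,π-p]`, `y ξ = π - X t (π - ξ)`, `y' ξ = exp (lam u X t (π - ξ))`; substitution
  `α = π - ξ` (see `Jlow_L`).
-/

set_option autoImplicit false
open Real Set MeasureTheory Filter Topology

namespace Pool.Agent.H90.DE
open Pool.Agent.H45.FL Pool.Agent.H51.DG Pool.Agent.H45.DY Pool.Agent.H90.DC

lemma LowE_tan {x : ℝ} (h0 : 0 < x) (h1 : x ≤ π / 4) : Real.tan x ≤ 2 * x := by
  have hpi := Real.pi_pos
  have hc : 1 / 2 ≤ Real.cos x := by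
    have h2 : Real.cos (π / 3) ≤ Real.cos x :=
      Real.cos_le_cos_of_nonneg_of_le_pi h0.le (by linarith) (by linarith)
    rwa [Real.cos_pi_div_three] at h2
  have hs : Real.sin x ≤ x := Real.sin_le h0.le
  rw [Real.tan_eq_sin_div_cos, div_le_iff₀ (by linarith)]
  nlinarith

/-- comparison of `VV` at two points of `(0,π)` -/
lemma LowE_VV {ξ y Λ : ℝ} (h0 : 0 < ξ) (h1 : ξ < π) (g0 : 0 < y) (g1 : y < π)
    (h : ξ * Real.exp (-Λ) ≤ y) : VV ξ - (Λ + 1) ≤ VV y := by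
  have hpi := Real.pi_pos
  unfold VV
  rw [if_pos h1.le, if_pos g1.le]
  have a1 : Real.log (Real.tan (ξ / 4)) ≤ Real.log (ξ / 2) := by
    apply Real.log_le_log
    · exact Real.tan_pos_of_pos_of_lt_pi_div_two (by linarith) (by linarith)
    · have := LowE_tan (x := ξ / 4) (by linarith) (by linarith)
      linarith
  have a2 : Real.log (y / 4) ≤ Real.log (Real.tan (y / 4)) := by
    apply Real.log_le_log (by linarith)
    exact (Real.lt_tan (by linarith) (by linarith)).le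
  have a3 : Real.log (ξ * Real.exp (-Λ) / 4) ≤ Real.log (y / 4) := by
    apply Real.log_le_log (by positivity)
    linarith
  have a4 : Real.log (ξ * Real.exp (-Λ) / 4) = Real.log (ξ / 2) - Λ - Real.log 2 := by
    have e1 : ξ * Real.exp (-Λ) / 4 = (ξ / 2) * (Real.exp (-Λ) / 2) := by ring
    rw [e1, Real.log_mul (by positivity) (by positivity),
      Real.log_div (Real.exp_ne_zero _) (by norm_num), Real.log_exp]
    ring
  have a5 := Real.log_two_lt_d9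
  linarith

/-- linear lower bound of a function with derivative at least `m` -/
lemma LowE_mv {f f' : ℝ → ℝ} (h : ∀ x, HasDerivAt f (f' x) x) {m : ℝ} (hm : ∀ x, m ≤ f' x)
    {x y : ℝ} (hxy : x ≤ y) : m * (y - x) ≤ f y - f x := by
  have h1 : Monotone (fun z => f z - m * z) := by
    apply monotone_of_deriv_nonneg
    · intro z
      exact ((h z).sub ((hasDerivAt_id z).const_mul m)).differentiableAt
    · intro z
      have h2 : HasDerivAt (fun z => f z - m * z) (f' z - m * 1) z :=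
        (h z).sub ((hasDerivAt_id z).const_mul m)
      rw [h2.deriv]
      linarith [hm z]
  have h3 := h1 hxy
  simp only at h3
  linarith

lemma LowE_gI0 {u : ℝ × ℝ → ℝ} {X : ℝ → ℝ → ℝ} (hX : Flow u X) (z α : ℝ) :
    gI u X z 0 α = ph |α - z| := by
  unfold gI
  rw [lam_zero, hX.init, hX.init, mul_zero, Real.exp_zero, one_mul]

lemma LowE_exp (x : ℝ) : Real.exp (2 * x) = Real.exp x ^ 2 := by
  rw [two_mul, Real.exp_add, sq]

variable {w u : ℝ × ℝ → ℝ} {X : ℝ → ℝ → ℝ} {p T : ℝ}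

lemma LowE_N {w0 : ℝ → ℝ} (h : DynE w u X p T) (hw : ∀ x, w (0, x) = w0 x) (t : ℝ) :
    IntegrableOn (fun ξ => (-w0 ξ) * (Real.exp (lam u X t ξ) ^ 2 * ph (X t ξ) - ph ξ))
      (Ioo 0 p) ∧
    ∫ ξ in Ioo 0 p, (-w0 ξ) * (Real.exp (lam u X t ξ) ^ 2 * ph (X t ξ) - ph ξ) =
      JI w u X 0 0 p t := by
  have hpt : ∀ ξ ∈ Ioo 0 p, (fun α => |w (0, α)| * (gI u X 0 t α - gI u X 0 0 α)) ξ =
      (-w0 ξ) * (Real.exp (lam u X t ξ) ^ 2 * ph (X t ξ) - ph ξ) := by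
    intro ξ hξ
    have h1 := h.neg ξ ⟨hξ.1.le, hξ.2.le⟩
    have h2 := Flow.mono h.cs.vel h.fl t (show (0 : ℝ) < ξ from hξ.1)
    rw [h.X0] at h2
    simp only
    rw [abs_of_nonpos h1, hw, LowE_gI0 h.fl]
    unfold gI
    rw [LowE_exp, h.X0, sub_zero, sub_zero, abs_of_pos h2, abs_of_pos hξ.1]
  have hi := JI_integrable h.cs h.fl h.arc0 t
  constructor
  · exact (integrableOn_congr_fun hpt measurableSet_Ioo).1 hi
  · unfold JI
    exact (setIntegral_congr_fun measurableSet_Ioo hpt).symm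

lemma LowE_P {w0 : ℝ → ℝ} (h : DynE w u X p T) (hw : ∀ x, w (0, x) = w0 x) (t : ℝ) :
    IntegrableOn (fun ξ => (w0 (π - ξ)) * (Real.exp (lam u X t (π - ξ)) ^ 2 *
      ph (π - X t (π - ξ)) - ph ξ)) (Ioo 0 (π - p)) ∧
    ∫ ξ in Ioo 0 (π - p), (w0 (π - ξ)) * (Real.exp (lam u X t (π - ξ)) ^ 2 *
      ph (π - X t (π - ξ)) - ph ξ) = JI w u X π p π t := by
  have hpt : ∀ ξ ∈ Ioo 0 (π - p),
      (fun α => |w (0, α)| * (gI u X π t α - gI u X π 0 α)) (π - ξ) =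
      (w0 (π - ξ)) * (Real.exp (lam u X t (π - ξ)) ^ 2 * ph (π - X t (π - ξ)) - ph ξ) := by
    intro ξ hξ
    have h1 := h.pos (π - ξ) ⟨by linarith [hξ.2], by linarith [hξ.1]⟩
    have h2 := Flow.mono h.cs.vel h.fl t (show π - ξ < π by linarith [hξ.1])
    rw [h.Xpi] at h2
    simp only
    rw [abs_of_nonneg h1, hw, LowE_gI0 h.fl]
    unfold gI
    rw [LowE_exp, h.Xpi, abs_sub_comm, abs_of_pos (sub_pos.2 h2),
      show π - ξ - π = -ξ by ring, abs_neg, abs_of_pos hξ.1]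
  have hmp := MeasureTheory.Measure.measurePreserving_sub_left (volume : Measure ℝ) π
  have hme : MeasurableEmbedding (fun ξ : ℝ => π - ξ) :=
    (MeasurableEquiv.subLeft π).measurableEmbedding
  have hpre : (fun ξ : ℝ => π - ξ) ⁻¹' Ioo p π = Ioo 0 (π - p) := by
    rw [Set.preimage_const_sub_Ioo, sub_self]
  have hi := JI_integrable h.cs h.fl h.arcPi t
  rw [← hmp.integrableOn_comp_preimage hme, hpre] at hi
  constructor
  · exact (integrableOn_congr_fun hpt measurableSet_Ioo).1 hi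
  · unfold JI
    have h7 := hmp.setIntegral_preimage_emb hme
      (fun α => |w (0, α)| * (gI u X π t α - gI u X π 0 α)) (Ioo p π)
    rw [hpre] at h7
    rw [← h7]
    exact (setIntegral_congr_fun measurableSet_Ioo hpt).symm

theorem lowN (w0 : ℝ → ℝ) (p : ℝ) (hg : GoodE w0 p) :
    ∃ C : ℝ, 0 ≤ C ∧ ∀ (w u : ℝ × ℝ → ℝ) (X : ℝ → ℝ → ℝ) (T : ℝ), DynE w u X p T →
      (∀ x, w (0, x) = w0 x) → ∀ t ∈ Icc 0 T, ∀ Λ : ℝ, (∀ α, |lam u X t α| ≤ Λ) →
      -(C * (1 + Λ)) ≤ JI w u X 0 0 p t := by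
  have hpi := Real.pi_pos
  have w00 : w0 0 = 0 := by
    have := hg.odd 0
    rw [neg_zero] at this
    linarith
  have w0p : w0 p = 0 :=
    le_antisymm (hg.neg p ⟨hg.p0.le, le_rfl⟩) (hg.pos p ⟨le_rfl, hg.p1.le⟩)
  have hs2 : ContDiff ℝ 2 w0 := by exact_mod_cast contDiff_infty.1 hg.smooth 2
  obtain ⟨C, hC, H⟩ := LB (fun ξ => -w0 ξ) hs2.neg p hg.p0 (by linarith [hg.p1])
    (by simp [w00]) (by simp [w0p])
    (fun x hx => by
      have := hg.neg x hx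
      linarith)
  refine ⟨2 * |deriv (fun ξ => -w0 ξ) 0| + 2 * C, by positivity, ?_⟩
  intro w u X T h hw t ht Λ hΛ
  have hΛ0 : 0 ≤ Λ := (abs_nonneg _).trans (hΛ 0)
  have hlc : Continuous fun p : ℝ × ℝ => lam u X p.1 p.2 := lam_cont h.cs.vel h.fl
  have hd : ∀ ξ, HasDerivAt (fun β => X t β) (Real.exp (lam u X t ξ)) ξ := fun ξ =>
    Flow.hasDerivAt_label h.cs.vel h.fl t ξ ht.1
  have hlow : ∀ ξ, Real.exp (-Λ) ≤ Real.exp (lam u X t ξ) := fun ξ =>
    Real.exp_le_exp.2 (neg_le_of_abs_le (hΛ ξ))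
  obtain ⟨i1, e1⟩ := LowE_N h hw t
  have K1 := H (fun ξ => X t ξ) (fun ξ => Real.exp (lam u X t ξ))
    (fun ξ _ => hd ξ)
    (Real.continuous_exp.comp (hlc.comp
      (continuous_const.prodMk continuous_id))).continuousOn
    (fun ξ _ => Real.exp_pos _) (h.X0 t) (by linarith [(h.Xp t).2]) (Λ + 1) (by linarith)
    (fun ξ hξ => by
      have h2 := Flow.mono h.cs.vel h.fl t (show (0 : ℝ) < ξ from hξ.1)
      have h3 := Flow.mono h.cs.vel h.fl t (show ξ < p from hξ.2)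
      rw [h.X0] at h2
      have h4 := LowE_mv hd hlow hξ.1.le
      simp only [h.X0] at h4
      exact LowE_VV hξ.1 (hξ.2.trans hg.p1) h2 (h3.trans (h.Xp t).2) (by linarith)) i1
  rw [e1] at K1
  simp only [Real.log_exp] at K1
  have b1 : 2 * deriv (fun ξ => -w0 ξ) 0 * lam u X t 0 ≤
      2 * |deriv (fun ξ => -w0 ξ) 0| * Λ := by
    have := abs_mul (deriv (fun ξ => -w0 ξ) 0) (lam u X t 0)
    have h1 := le_abs_self (deriv (fun ξ => -w0 ξ) 0 * lam u X t 0)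
    have h2 : |deriv (fun ξ => -w0 ξ) 0| * |lam u X t 0| ≤
        |deriv (fun ξ => -w0 ξ) 0| * Λ := mul_le_mul_of_nonneg_left (hΛ 0) (abs_nonneg _)
    nlinarith
  have b2 := abs_nonneg (deriv (fun ξ => -w0 ξ) 0)
  nlinarith [mul_nonneg hC hΛ0]

theorem lowP (w0 : ℝ → ℝ) (p : ℝ) (hg : GoodE w0 p) :
    ∃ C : ℝ, 0 ≤ C ∧ ∀ (w u : ℝ × ℝ → ℝ) (X : ℝ → ℝ → ℝ) (T : ℝ), DynE w u X p T →
      (∀ x, w (0, x) = w0 x) → ∀ t ∈ Icc 0 T, ∀ Λ : ℝ, (∀ α, |lam u X t α| ≤ Λ) →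
      -(C * (1 + Λ)) ≤ JI w u X π p π t := by
  have hpi := Real.pi_pos
  have w0pi : w0 π = 0 := by
    have h1 := hg.odd π
    have h2 := hg.per (-π)
    rw [show -π + 2 * π = π by ring] at h2
    linarith
  have w0p : w0 p = 0 :=
    le_antisymm (hg.neg p ⟨hg.p0.le, le_rfl⟩) (hg.pos p ⟨le_rfl, hg.p1.le⟩)
  have hs2 : ContDiff ℝ 2 w0 := by exact_mod_cast contDiff_infty.1 hg.smooth 2
  obtain ⟨C, hC, H⟩ := LB (fun ξ => w0 (π - ξ)) (hs2.comp (contDiff_const.sub contDiff_id))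
    (π - p) (by linarith [hg.p1]) (by linarith [hg.p0])
    (by simp [w0pi]) (by simp [w0p])
    (fun x hx => hg.pos (π - x) ⟨by linarith [hx.2], by linarith [hx.1]⟩)
  refine ⟨2 * |deriv (fun ξ => w0 (π - ξ)) 0| + 2 * C, by positivity, ?_⟩
  intro w u X T h hw t ht Λ hΛ
  have hΛ0 : 0 ≤ Λ := (abs_nonneg _).trans (hΛ 0)
  have hlc : Continuous fun p : ℝ × ℝ => lam u X p.1 p.2 := lam_cont h.cs.vel h.fl
  have hd : ∀ ξ, HasDerivAt (fun β => X t β) (Real.exp (lam u X t ξ)) ξ := fun ξ =>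
    Flow.hasDerivAt_label h.cs.vel h.fl t ξ ht.1
  have hlow : ∀ ξ, Real.exp (-Λ) ≤ Real.exp (lam u X t ξ) := fun ξ =>
    Real.exp_le_exp.2 (neg_le_of_abs_le (hΛ ξ))
  obtain ⟨i1, e1⟩ := LowE_P h hw t
  have K1 := H (fun ξ => π - X t (π - ξ)) (fun ξ => Real.exp (lam u X t (π - ξ)))
    (fun ξ _ => by
      have h5 := ((hd (π - ξ)).comp_const_sub π ξ).const_sub π
      rw [neg_neg] at h5
      exact h5)
    (Real.continuous_exp.comp (hlc.comp
      (continuous_const.prodMk (continuous_const.sub continuous_id)))).continuousOn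
    (fun ξ _ => Real.exp_pos _) (by simp [h.Xpi])
    (by
      rw [show π - (π - p) = p by ring]
      linarith [(h.Xp t).1]) (Λ + 1) (by linarith)
    (fun ξ hξ => by
      have h2 := Flow.mono h.cs.vel h.fl t (show p < π - ξ by linarith [hξ.2])
      have h3 := Flow.mono h.cs.vel h.fl t (show π - ξ < π by linarith [hξ.1])
      rw [h.Xpi] at h3
      have h4 := LowE_mv hd hlow (show π - ξ ≤ π by linarith [hξ.1])
      simp only [h.Xpi] at h4
      exact LowE_VV hξ.1 (by linarith [hξ.2, hg.p0]) (by linarith)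
        (by linarith [(h.Xp t).1]) (by linarith)) i1
  rw [e1] at K1
  simp only [Real.log_exp, sub_zero] at K1
  have b1 : 2 * deriv (fun ξ => w0 (π - ξ)) 0 * lam u X t π ≤
      2 * |deriv (fun ξ => w0 (π - ξ)) 0| * Λ := by
    have := abs_mul (deriv (fun ξ => w0 (π - ξ)) 0) (lam u X t π)
    have h1 := le_abs_self (deriv (fun ξ => w0 (π - ξ)) 0 * lam u X t π)
    have h2 : |deriv (fun ξ => w0 (π - ξ)) 0| * |lam u X t π| ≤
        |deriv (fun ξ => w0 (π - ξ)) 0| * Λ := mul_le_mul_of_nonneg_left (hΛ π) (abs_nonneg _)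
    nlinarith
  have b2 := abs_nonneg (deriv (fun ξ => w0 (π - ξ)) 0)
  nlinarith [mul_nonneg hC hΛ0]

end Pool.Agent.H90.DE
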