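import Pool.Agent.H44.DE.SStat

/-!
# DE: the static inequality
-/

set_option autoImplicit false
open Real Set MeasureTheory Filter Topology

namespace Pool.Agent.H90.DE
open Pool.Agent.H45.FL Pool.Agent.H51.DG Pool.Agent.H45.DY Pool.Agent.H90.DC

theorem staticE : ∃ K : ℝ, 0 ≤ K ∧ ∀ (W : ℝ → ℝ) (l : ℝ), OddE W l → ContDiff ℝ 2 W →
    9 / 8 * EFE W l ≤ TF W l + K * (BN W l + BP W l) :=
  Pool.Agent.H44.DE.static_inequality

end Pool.Agent.H90.DE
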