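import Pool.Agent.H90.DE.HarE
import Pool.Agent.H90.DE.LowE
import Pool.Agent.H90.DE.StatE
import Pool.Agent.H90.DC.Ener

/-!
# DE job D4: the energy estimate (uses the stubs of the imported files; see DC/Ener.lean)

`M(s) = MI 0 p s + MI p π s ≥ 0`, `J(s) = JI p 0 p s + JI p p π s - M(s)/4`, `Y(s) = JI 0 0 p s + JI π p π s`,
`E(s) = EI p π s - EI 0 p s`.
* `energyE`: `Fn(s) = J(s) - K Y(s) - 9/8 (E(s) + M(s)/2)` has the derivative
  `TF + K (BN + BP) - 9/8 EFE ≥ 0` for `s ∈ [0,T]` (`JI_hasDerivAt` with the four arcs, `MI_hasDerivAt`,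
  `EI_hasDerivAt`, `TF_eq`, `BN_eq`, `BP_eq`, `EF_eq`, `staticE` with `oddE`, `smE`), so
  `Fn(t) ≥ Fn(0) = -(1/4 + 9/16) M(0)` (`JI_zero`, `EI_zero`; `M(0) = ∫_0^π |w0|` depends on `w0` only).
  With `hardyN`, `hardyP`, `lowN`, `lowP`: `9/8 E(t) ≤ J(t) - K Y(t) - 9/16 M(t) + (13/16) M(0)
  ≤ E(t) + C (1+Λ)`, so `E(t) ≤ 8 C (1+Λ)`.
* `ZZ_leE`: `ZZ w u X 0 p t = ∫_0^p (-w0) lma² = -EI w u X 0 p t + 2 ∫_0^p w0' lma`,
  `ZZ w u X p π t = EI w u X p π t - 2 ∫_p^π w0' lma`; `|∫ w0' lma| ≤ C' Λ` by parts (as in `ZZ_arc`); `ZZ_split`.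
-/

set_option autoImplicit false
open Real Set MeasureTheory Filter Topology

namespace Pool.Agent.H90.DE
open Pool.Agent.H45.FL Pool.Agent.H51.DG Pool.Agent.H45.DY Pool.Agent.H90.DC

lemma EnerE_MI_nonneg (w u : ℝ × ℝ → ℝ) (X : ℝ → ℝ → ℝ) (a b t : ℝ) : 0 ≤ MI w u X a b t :=
  integral_nonneg fun _ => mul_nonneg (abs_nonneg _) (Real.exp_pos _).le

lemma EnerE_MI_zero (w u : ℝ × ℝ → ℝ) (X : ℝ → ℝ → ℝ) (w0 : ℝ → ℝ) (hw : ∀ x, w (0, x) = w0 x)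
    (a b : ℝ) : MI w u X a b 0 = ∫ α in Ioo a b, |w0 α| := by
  unfold MI
  refine integral_congr_ae (Filter.Eventually.of_forall fun α => ?_)
  show |w (0, α)| * Real.exp (2 * lam u X 0 α) = |w0 α|
  rw [lam_zero, hw, mul_zero, Real.exp_zero, mul_one]

/-- the functional of the energy estimate -/
noncomputable def EnerE_Fn (w u : ℝ × ℝ → ℝ) (X : ℝ → ℝ → ℝ) (p K s : ℝ) : ℝ :=
  (JI w u X p 0 p s + JI w u X p p π s - 1 / 4 * (MI w u X 0 p s + MI w u X p π s)) -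
    K * (JI w u X 0 0 p s + JI w u X π p π s) -
    9 / 8 * (EI w u X p π s - EI w u X 0 p s + 1 / 2 * (MI w u X 0 p s + MI w u X p π s))

lemma EnerE_Fn_der {w u : ℝ × ℝ → ℝ} {X : ℝ → ℝ → ℝ} {p T : ℝ} (h : DynE w u X p T) (K t : ℝ) :
    HasDerivAt (EnerE_Fn w u X p K)
      ((JD w u X p 0 p t + JD w u X p p π t - 1 / 4 * (MD w u X 0 p t + MD w u X p π t)) -
        K * (JD w u X 0 0 p t + JD w u X π p π t) -
        9 / 8 * (ED w u X p π t - ED w u X 0 p t +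
          1 / 2 * (MD w u X 0 p t + MD w u X p π t))) t := by
  have a1 := JI_hasDerivAt h.cs h.fl h.arcN t
  have a2 := JI_hasDerivAt h.cs h.fl h.arcP t
  have a3 := JI_hasDerivAt h.cs h.fl h.arc0 t
  have a4 := JI_hasDerivAt h.cs h.fl h.arcPi t
  have m1 := MI_hasDerivAt h.cs h.fl 0 p t
  have m2 := MI_hasDerivAt h.cs h.fl p π t
  have e1 := EI_hasDerivAt h.cs h.fl 0 p t
  have e2 := EI_hasDerivAt h.cs h.fl p π t
  have hm := m1.add m2
  exact (((a1.add a2).sub (hm.const_mul (1 / 4))).sub ((a3.add a4).const_mul K)).sub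
    (((e2.sub e1).add (hm.const_mul (1 / 2))).const_mul (9 / 8))

theorem energyE (w0 : ℝ → ℝ) (p : ℝ) (hg : GoodE w0 p) :
    ∃ C : ℝ, 0 ≤ C ∧ ∀ (w u : ℝ × ℝ → ℝ) (X : ℝ → ℝ → ℝ) (T : ℝ), DynE w u X p T →
      (∀ x, w (0, x) = w0 x) → ∀ t ∈ Icc 0 T, ∀ Λ : ℝ, (∀ α, |lam u X t α| ≤ Λ) →
      EI w u X p π t - EI w u X 0 p t ≤ C * (1 + Λ) := by
  obtain ⟨C1, hC1, h1⟩ := hardyP w0 p hg
  obtain ⟨C2, hC2, h2⟩ := hardyN w0 p hg
  obtain ⟨C3, hC3, h3⟩ := lowN w0 p hg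
  obtain ⟨C4, hC4, h4⟩ := lowP w0 p hg
  obtain ⟨K, hK, hst⟩ := staticE
  set M0 : ℝ := (∫ α in Ioo 0 p, |w0 α|) + ∫ α in Ioo p π, |w0 α| with hM0
  have hM0n : 0 ≤ M0 := add_nonneg (integral_nonneg fun _ => abs_nonneg _)
    (integral_nonneg fun _ => abs_nonneg _)
  refine ⟨8 * (C1 + C2 + K * (C3 + C4)) + 13 / 2 * M0, by positivity, ?_⟩
  intro w u X T h hw t ht Λ hΛ
  have hΛ0 : 0 ≤ Λ := (abs_nonneg _).trans (hΛ 0)
  have b1 := h1 w u X T h hw t ht Λ hΛ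
  have b2 := h2 w u X T h hw t ht Λ hΛ
  have b3 := h3 w u X T h hw t ht Λ hΛ
  have b4 := h4 w u X T h hw t ht Λ hΛ
  have hmono : MonotoneOn (EnerE_Fn w u X p K) (Icc 0 T) := by
    refine monotoneOn_of_deriv_nonneg (convex_Icc 0 T)
      (fun s _ => (EnerE_Fn_der h K s).continuousAt.continuousWithinAt)
      (fun s _ => (EnerE_Fn_der h K s).differentiableAt.differentiableWithinAt) ?_
    intro s hs
    rw [interior_Icc] at hs
    have hs' : s ∈ Icc 0 T := ⟨hs.1.le, hs.2.le⟩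
    rw [(EnerE_Fn_der h K s).deriv, h.TF_eq s hs', h.EF_eq s hs', h.BN_eq s hs', h.BP_eq s hs']
    have hc : ContDiff ℝ 2 (fun x => w (s, x)) := by
      exact_mod_cast contDiff_infty.1 (h.smE s) 2
    have hss := hst (fun x => w (s, x)) (X s p) (h.oddE s) hc
    linarith
  have hF := hmono ⟨le_rfl, h.hT⟩ ht ht.1
  have hF0 : EnerE_Fn w u X p K 0 = -(13 / 16) * M0 := by
    unfold EnerE_Fn
    rw [JI_zero, JI_zero, JI_zero, JI_zero, EI_zero, EI_zero,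
      EnerE_MI_zero w u X w0 hw, EnerE_MI_zero w u X w0 hw, hM0]
    ring
  rw [hF0] at hF
  unfold EnerE_Fn at hF
  have m1 := EnerE_MI_nonneg w u X 0 p t
  have m2 := EnerE_MI_nonneg w u X p π t
  have k3 : K * -(C3 * (1 + Λ)) ≤ K * JI w u X 0 0 p t := mul_le_mul_of_nonneg_left b3 hK
  have k4 : K * -(C4 * (1 + Λ)) ≤ K * JI w u X π p π t := mul_le_mul_of_nonneg_left b4 hK
  have hMΛ : M0 ≤ M0 * (1 + Λ) := by nlinarith
  have e : (8 * (C1 + C2 + K * (C3 + C4)) + 13 / 2 * M0) * (1 + Λ) =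
      8 * (C1 * (1 + Λ)) + 8 * (C2 * (1 + Λ)) - 8 * (K * -(C3 * (1 + Λ)))
        - 8 * (K * -(C4 * (1 + Λ))) + 13 / 2 * (M0 * (1 + Λ)) := by ring
  rw [e]
  linarith

lemma EnerE_parts {f f' g g' : ℝ → ℝ} {a b Λ K : ℝ} (hab : a ≤ b)
    (hf : ∀ x, HasDerivAt f (f' x) x) (hg : ∀ x, HasDerivAt g (g' x) x)
    (hf' : Continuous f') (hg' : Continuous g') (hΛ : ∀ x, |g x| ≤ Λ)
    (hK : ∀ x ∈ Icc a b, |f' x| ≤ K) :
    |∫ x in a..b, f x * g' x| ≤ (|f b| + |f a| + K * (b - a)) * Λ := by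
  have hΛ0 : 0 ≤ Λ := (abs_nonneg _).trans (hΛ 0)
  have hK0 : 0 ≤ K := (abs_nonneg _).trans (hK a ⟨le_rfl, hab⟩)
  rw [intervalIntegral.integral_mul_deriv_eq_deriv_mul (fun x _ => hf x) (fun x _ => hg x)
    (hf'.intervalIntegrable _ _) (hg'.intervalIntegrable _ _)]
  have h1 : |∫ x in a..b, f' x * g x| ≤ K * Λ * |b - a| := by
    rw [← Real.norm_eq_abs]
    refine intervalIntegral.norm_integral_le_of_norm_le_const fun x hx => ?_
    rw [uIoc_of_le hab] at hx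
    rw [Real.norm_eq_abs, abs_mul]
    exact mul_le_mul (hK x ⟨hx.1.le, hx.2⟩) (hΛ x) (abs_nonneg _) hK0
  rw [abs_of_nonneg (sub_nonneg.2 hab)] at h1
  have h2 : |f b * g b| ≤ |f b| * Λ := by
    rw [abs_mul]
    exact mul_le_mul_of_nonneg_left (hΛ b) (abs_nonneg _)
  have h3 : |f a * g a| ≤ |f a| * Λ := by
    rw [abs_mul]
    exact mul_le_mul_of_nonneg_left (hΛ a) (abs_nonneg _)
  have h4 : |f b * g b - f a * g a - ∫ x in a..b, f' x * g x| ≤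
      |f b * g b| + |f a * g a| + |∫ x in a..b, f' x * g x| := by
    refine (abs_sub _ _).trans ?_
    have := abs_sub (f b * g b) (f a * g a)
    linarith
  calc _ ≤ _ := h4
    _ ≤ |f b| * Λ + |f a| * Λ + K * Λ * (b - a) := by linarith
    _ = _ := by ring

/-- a bound of the linear term that depends on `w0` only -/
lemma EnerE_lin (w0 : ℝ → ℝ) (hs : ContDiff ℝ ((⊤ : ℕ∞) : WithTop ℕ∞) w0) {a b : ℝ} (hab : a ≤ b) :
    ∃ C : ℝ, 0 ≤ C ∧ ∀ (w u : ℝ × ℝ → ℝ) (X : ℝ → ℝ → ℝ), CSol w u → Flow u X →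
      (∀ x, w (0, x) = w0 x) → ∀ t, 0 ≤ t → ∀ Λ : ℝ, (∀ α, |lam u X t α| ≤ Λ) →
      |∫ α in a..b, px w (0, α) * lma u X t α| ≤ C * Λ := by
  have hs1 : ContDiff ℝ ((⊤ : ℕ∞) : WithTop ℕ∞) (deriv w0) :=
    ((contDiff_infty_iff_deriv (f := w0)).1 hs).2
  have hs2 : ContDiff ℝ ((⊤ : ℕ∞) : WithTop ℕ∞) (deriv (deriv w0)) :=
    ((contDiff_infty_iff_deriv (f := deriv w0)).1 hs1).2
  obtain ⟨K, hK⟩ := (isCompact_Icc (a := a) (b := b)).exists_bound_of_continuousOn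
    hs2.continuous.continuousOn
  have hK0 : 0 ≤ K := (norm_nonneg _).trans (hK a ⟨le_rfl, hab⟩)
  have hba : 0 ≤ b - a := sub_nonneg.2 hab
  refine ⟨|deriv w0 b| + |deriv w0 a| + K * (b - a), by positivity, ?_⟩
  intro w u X hcs hX hw t ht Λ hΛ
  have hpx : ∀ α, px w (0, α) = deriv w0 α := by
    intro α
    show deriv (fun y => w (0, y)) α = deriv w0 α
    rw [show (fun y => w (0, y)) = w0 from funext hw]
  have he : (∫ α in a..b, px w (0, α) * lma u X t α) = ∫ α in a..b, deriv w0 α * lma u X t α :=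
    intervalIntegral.integral_congr fun α _ => by
      show px w (0, α) * lma u X t α = deriv w0 α * lma u X t α
      rw [hpx]
  rw [he]
  have hlc : Continuous fun α => lma u X t α :=
    (lma_cont hcs.vel hX).comp (continuous_const.prodMk continuous_id)
  exact EnerE_parts (f := deriv w0) (f' := deriv (deriv w0)) (g := fun α => lam u X t α)
    (g' := fun α => lma u X t α) hab
    (fun x => (hs1.differentiable (by simp) x).hasDerivAt)
    (fun x => lam_hasDerivAt_label hcs.vel hX t x ht) hs2.continuous hlc hΛ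
    (fun x hx => by rw [← Real.norm_eq_abs]; exact hK x hx)

lemma EnerE_ZZ {w u : ℝ × ℝ → ℝ} {X : ℝ → ℝ → ℝ} (hcs : CSol w u) (hX : Flow u X) {a b : ℝ}
    (hab : a ≤ b) (t ε : ℝ) (hε : ∀ α ∈ Ioo a b, |w (0, α)| = ε * w (0, α)) :
    ZZ w u X a b t =
      ε * (EI w u X a b t - 2 * ∫ α in a..b, px w (0, α) * lma u X t α) := by
  have hl : Continuous fun α => lma u X t α :=
    (lma_cont hcs.vel hX).comp (continuous_const.prodMk continuous_id)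
  have hw : Continuous fun α : ℝ => w (0, α) :=
    hcs.sm.continuous.comp (continuous_const.prodMk continuous_id)
  have hp : Continuous fun α : ℝ => px w (0, α) :=
    (smooth_px w hcs.sm).continuous.comp (continuous_const.prodMk continuous_id)
  have hint : ∀ {f : ℝ → ℝ}, Continuous f → IntegrableOn f (Ioo a b) := fun hf =>
    (hf.continuousOn.integrableOn_compact (isCompact_Icc (a := a) (b := b))).mono_set
      Ioo_subset_Icc_self
  rw [intervalIntegral.integral_of_le hab, integral_Ioc_eq_integral_Ioo]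
  unfold ZZ EI
  rw [← integral_const_mul, ← integral_sub, ← integral_const_mul]
  · refine setIntegral_congr_fun measurableSet_Ioo fun α hα => ?_
    show |w (0, α)| * lma u X t α ^ 2 =
      ε * (w (0, α) * lma u X t α ^ 2 + 2 * px w (0, α) * lma u X t α
        - 2 * (px w (0, α) * lma u X t α))
    rw [hε α hα]
    ring
  · exact hint ((hw.mul (hl.pow 2)).add ((continuous_const.mul hp).mul hl))
  · exact hint (continuous_const.mul (hp.mul hl))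

theorem ZZ_leE (w0 : ℝ → ℝ) (p : ℝ) (hg : GoodE w0 p) :
    ∃ C : ℝ, 0 ≤ C ∧ ∀ (w u : ℝ × ℝ → ℝ) (X : ℝ → ℝ → ℝ) (T : ℝ), DynE w u X p T →
      (∀ x, w (0, x) = w0 x) → ∀ t ∈ Icc 0 T, ∀ Λ : ℝ, (∀ α, |lam u X t α| ≤ Λ) →
      ZZ w u X 0 (2 * π) t ≤ C * (1 + Λ) := by
  obtain ⟨C, hC, hE⟩ := energyE w0 p hg
  obtain ⟨C1, hC1, h1⟩ := EnerE_lin w0 hg.smooth hg.p0.le
  obtain ⟨C2, hC2, h2⟩ := EnerE_lin w0 hg.smooth hg.p1.le
  refine ⟨2 * C + 4 * C1 + 4 * C2, by positivity, ?_⟩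
  intro w u X T h hw t ht Λ hΛ
  have hΛ0 : 0 ≤ Λ := (abs_nonneg _).trans (hΛ 0)
  have e1 := EnerE_ZZ h.cs h.fl h.p0.le t (-1) (fun α hα => by
    rw [abs_of_nonpos (h.neg α ⟨hα.1.le, hα.2.le⟩)]; ring)
  have e2 := EnerE_ZZ h.cs h.fl h.p1.le t 1 (fun α hα => by
    rw [abs_of_nonneg (h.pos α ⟨hα.1.le, hα.2.le⟩)]; ring)
  have b1 := (abs_le.1 (h1 w u X h.cs h.fl hw t ht.1 Λ hΛ)).2
  have b2 := (abs_le.1 (h2 w u X h.cs h.fl hw t ht.1 Λ hΛ)).1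
  have b3 := hE w u X T h hw t ht Λ hΛ
  have hc1 : 0 ≤ C1 := hC1
  rw [h.ZZ_split t, e1, e2]
  have e : (2 * C + 4 * C1 + 4 * C2) * (1 + Λ) =
      2 * (C * (1 + Λ)) + 4 * (C1 * Λ) + 4 * (C2 * Λ) + 4 * C1 + 4 * C2 := by ring
  rw [e]
  linarith

end Pool.Agent.H90.DE
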