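import Pool.Agent.H90.DE.Defs
import Pool.Agent.H90.DC.DynL

/-!
# DE job D1: dynamics of class (E) (adapt Pool/Agent/H90/DC/DynL.lean)

All as in `DynL.lean`; `l = X t p`, `W = w(t,·)`.
* `X0`, `Xpi`, `Xp`, `zero`, `smE`, `lipE`, `pxxE`, `uE`, `lma_sq`: copy.  `oddE`: signs exchanged.
* arcs: `Arc w p 0 p`, `Arc w p p π`, `Arc w 0 0 p`, `Arc w π p π` (`Or.inl rfl` / `Or.inr rfl`).
* `EF_eq`: `ED w u X 0 p t = 2 ∫_0^l W' HT W'`, `ED w u X p π t = 2 ∫_l^π W' HT W'` (as `ED_eq`, `ch_arc` with the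
  arcs `(0,p)`, `(p,π)`, `X t 0 = 0`, `X t π = π`), `MD w u X 0 p t = -2 ∫_0^l W HT W`,
  `MD w u X p π t = 2 ∫_l^π W HT W` (`|w(0,α)| exp(2 lam) = |w (t,X)| exp(lam)`, `w_along`).
* `TF_eq`: for `α ∈ (0,p)`: `|X t α - X t p| = l - X t α ∈ (0,π)`, `α < p` so `gd` has the sign `-dph`;
  `ph ξ = Pc ξ + 1/4`, `dph ξ = dPh ξ` for `0 < ξ < π` (`DynL_ct`: `ph ξ = Ph ξ + 3/8`, `Pc = Ph + 1/8`), `|w(0,α)| = -w(0,α)`;
  the term `1/4` cancels with `MD/4`.  For `α ∈ (p,π)`: sign `+dph`, `|w(0,α)| = w(0,α)`.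
* `BN_eq`: base `0`: `|X t α - 0| = X t α`, `u (t,0) = 0`, `ph = Pk`, `|w(0,α)| = -w(0,α)`.
* `BP_eq`: base `π`: `|X t α - π| = π - X t α`, `u (t,π) = 0` (`u (t,X t π)`, `ou` and periodicity, see `Xpi`), sign
  `-dph` (`α < π`), `|w(0,α)| = w(0,α)`.
* `ZZ_split`: the integrand of `ZZ` is even (`ow`, `lma_sq`) and `2π`-periodic (`cs.per`, `lma_per`).
-/

set_option autoImplicit false
open Real Set MeasureTheory Filter Topology

namespace Pool.Agent.H90.DE
open Pool.Agent.H45.FL Pool.Agent.H51.DG Pool.Agent.H45.DY Pool.Agent.H90.DC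

variable {w u : ℝ × ℝ → ℝ} {X : ℝ → ℝ → ℝ} {p T : ℝ}

theorem DynE.Xodd (h : DynE w u X p T) (t α : ℝ) : X t (-α) = -X t α := by
  refine traj_unique h.cs.vel (fun s => X s (-α)) (fun s => -X s α)
    (fun s => h.fl.ode s (-α)) (fun s => ?_) 0 ?_ t
  · show HasDerivAt (fun s => -X s α) (u (s, -X s α)) s
    rw [h.ou]
    exact (h.fl.ode s α).neg
  · show X 0 (-α) = -X 0 α
    rw [h.fl.init, h.fl.init]

theorem DynE.X0 (h : DynE w u X p T) (t : ℝ) : X t 0 = 0 := by
  have h1 := h.Xodd t 0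
  rw [neg_zero] at h1
  linarith

theorem DynE.Xpi (h : DynE w u X p T) (t : ℝ) : X t π = π := by
  have h1 := h.Xodd t π
  have h2 := Flow.per h.cs.vel h.fl t (-π)
  have h3 : -π + 2 * π = π := by ring
  rw [h3, h1] at h2
  linarith

theorem DynE.Xp (h : DynE w u X p T) (t : ℝ) : 0 < X t p ∧ X t p < π := by
  have hm := Flow.mono h.cs.vel h.fl t
  have h1 := hm h.p0
  have h2 := hm h.p1
  rw [h.X0] at h1
  rw [h.Xpi] at h2
  exact ⟨h1, h2⟩

theorem DynE.zero (h : DynE w u X p T) : w (0, 0) = 0 ∧ w (0, p) = 0 ∧ w (0, π) = 0 := by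
  refine ⟨?_, ?_, ?_⟩
  · have h1 := h.ow 0 0
    rw [neg_zero] at h1
    linarith
  · exact le_antisymm (h.neg p ⟨h.p0.le, le_rfl⟩) (h.pos p ⟨le_rfl, h.p1.le⟩)
  · have h1 := h.ow 0 π
    have h2 := h.cs.per 0 (-π)
    have h3 : -π + 2 * π = π := by ring
    rw [h3, h1] at h2
    linarith

theorem DynE.arcN (h : DynE w u X p T) : Arc w p 0 p :=
  ⟨h.p0, by linarith [h.p1, Real.pi_pos], Or.inr rfl, h.zero.2.1⟩

theorem DynE.arcP (h : DynE w u X p T) : Arc w p p π :=
  ⟨h.p1, by linarith [h.p0, Real.pi_pos], Or.inl rfl, h.zero.2.1⟩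

theorem DynE.arc0 (h : DynE w u X p T) : Arc w 0 0 p :=
  ⟨h.p0, by linarith [h.p1, Real.pi_pos], Or.inl rfl, h.zero.1⟩

theorem DynE.arcPi (h : DynE w u X p T) : Arc w π p π :=
  ⟨h.p1, by linarith [h.p0, Real.pi_pos], Or.inr rfl, h.zero.2.2⟩

theorem DynE.oddE (h : DynE w u X p T) (t : ℝ) : OddE (fun x => w (t, x)) (X t p) := by
  have hm := Flow.mono h.cs.vel h.fl t
  refine ⟨fun x => h.cs.per t x, fun x => h.ow t x, (h.Xp t).1, (h.Xp t).2, fun x hx => ?_,
    fun x hx => ?_⟩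
  · show w (t, x) ≤ 0
    obtain ⟨α, rfl⟩ := Flow.surj h.cs.vel h.fl t x
    rw [← h.X0 t] at hx
    rw [w_along h.cs h.fl]
    exact mul_nonpos_of_nonpos_of_nonneg (h.neg α ⟨hm.le_iff_le.1 hx.1, hm.le_iff_le.1 hx.2⟩)
      (Real.exp_pos _).le
  · show 0 ≤ w (t, x)
    obtain ⟨α, rfl⟩ := Flow.surj h.cs.vel h.fl t x
    have hx2 : X t α ≤ X t π := by
      rw [h.Xpi t]
      exact hx.2
    rw [w_along h.cs h.fl]
    exact mul_nonneg (h.pos α ⟨hm.le_iff_le.1 hx.1, hm.le_iff_le.1 hx2⟩) (Real.exp_pos _).le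

theorem DynE.smE (h : DynE w u X p T) (t : ℝ) :
    ContDiff ℝ ((⊤ : ℕ∞) : WithTop ℕ∞) (fun x => w (t, x)) :=
  h.cs.sm.comp (contDiff_const.prodMk contDiff_id)

lemma DynE_lip (h : DynE w u X p T) (t : ℝ) : ∃ K, Lip K (fun x => w (t, x)) :=
  HTd_lip (f := fun y => w (t, y)) (f' := fun y => px w (t, y))
    (fun y => hasDerivAt_px w h.cs.sm t y) (DynL_cont (smooth_px w h.cs.sm) t)
    (fun y => HTd_per h.cs.per t y)

lemma DynE_pxx (h : DynE w u X p T) (t : ℝ) (ht : t ∈ Icc 0 T) (x : ℝ) :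
    px (px u) (t, x) = HT (fun y => px w (t, y)) x := by
  have hs := h.cs.sm
  have hs1 := smooth_px w hs
  have hs2 := smooth_px (px w) hs1
  have hp1 := HTd_per h.cs.per
  have hp2 := HTd_per hp1
  obtain ⟨K, hK⟩ := DynE_lip h t
  obtain ⟨K', hK'⟩ := HTd_lip (f := fun y => px w (t, y)) (f' := fun y => px (px w) (t, y))
    (fun y => hasDerivAt_px (px w) hs1 t y) (DynL_cont hs2 t) (fun y => hp2 t y)
  have key := HTd_der (f := fun y => w (t, y)) (f' := fun y => px w (t, y))
    (fun y => hasDerivAt_px w hs t y) hK hK' x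
  have e1 : (fun y => px u (t, y)) = HT (fun y => w (t, y)) := funext fun y => h.hu t ht y
  show deriv (fun y => px u (t, y)) x = _
  rw [e1]
  exact key.deriv

lemma DynE_u0 (h : DynE w u X p T) (t : ℝ) : u (t, 0) = 0 := by
  have h1 := h.ou t 0
  rw [neg_zero] at h1
  linarith

/-- the velocity of `w(t,·)` -/
lemma DynE_UU (h : DynE w u X p T) (t : ℝ) (ht : t ∈ Icc 0 T) (x : ℝ) :
    UU (fun y => w (t, y)) x = u (t, x) := by
  have hsm := h.cs.vel.sm
  have h1 : (∫ y in (0:ℝ)..x, px u (t, y)) = u (t, x) - u (t, 0) :=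
    intervalIntegral.integral_eq_sub_of_hasDerivAt (fun y _ => hasDerivAt_px u hsm t y)
      ((DynL_cont (smooth_px u hsm) t).intervalIntegrable _ _)
  unfold UU
  rw [← intervalIntegral.integral_congr (fun y _ => h.hu t ht y), h1, DynE_u0 h t, sub_zero]

lemma DynE_upi (h : DynE w u X p T) (t : ℝ) : u (t, π) = 0 := by
  have h1 := h.ou t π
  have h2 := h.cs.vel.per t (-π)
  have h3 : -π + 2 * π = π := by ring
  rw [h3, h1] at h2
  linarith

/-- `ED` over a label interval as an integral over the arc -/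
lemma DynE_ED (h : DynE w u X p T) (t : ℝ) (ht : t ∈ Icc 0 T) (a b : ℝ) (hab : a ≤ b) :
    ED w u X a b t = 2 * ∫ x in X t a..X t b,
      deriv (fun x => w (t, x)) x * HT (deriv (fun x => w (t, x))) x := by
  have hm := (Flow.mono h.cs.vel h.fl t).monotone hab
  have hd : deriv (fun x => w (t, x)) = fun x => px w (t, x) := rfl
  have h1 := ch_arc h.cs h.fl t ht.1 a b
    (fun x => 2 * (px w (t, x) * HT (fun y => px w (t, y)) x))
  rw [hd, ← intervalIntegral.integral_const_mul, intervalIntegral.integral_of_le hm,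
    integral_Ioc_eq_integral_Ioo, h1]
  unfold ED
  refine integral_congr_ae (Filter.Eventually.of_forall fun α => ?_)
  show 2 * (px w (0, α) + w (0, α) * lma u X t α) *
      (px (px u) (t, X t α) * Real.exp (lam u X t α)) =
    2 * (px w (t, X t α) * HT (fun y => px w (t, y)) (X t α)) * Real.exp (lam u X t α)
  rw [← DynE_pxx h t ht, wx_along h.cs h.fl t α ht.1]
  ring

lemma DynE_exp (a : ℝ) : Real.exp (2 * a) = Real.exp a * Real.exp a := by
  rw [← Real.exp_add]
  ring_nf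

/-- `MD` over a label interval, `σ = ±1` the sign of `w(0,·)` -/
lemma DynE_MD (h : DynE w u X p T) (t : ℝ) (ht : t ∈ Icc 0 T) (a b σ : ℝ) (hab : a ≤ b)
    (hσ : ∀ α ∈ Ioo a b, |w (0, α)| = σ * w (0, α)) :
    MD w u X a b t = 2 * σ * ∫ x in X t a..X t b, w (t, x) * HT (fun y => w (t, y)) x := by
  have hm := (Flow.mono h.cs.vel h.fl t).monotone hab
  have h1 := ch_arc h.cs h.fl t ht.1 a b
    (fun x => 2 * σ * (w (t, x) * HT (fun y => w (t, y)) x))
  rw [← intervalIntegral.integral_const_mul, intervalIntegral.integral_of_le hm,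
    integral_Ioc_eq_integral_Ioo, h1]
  unfold MD
  refine setIntegral_congr_fun measurableSet_Ioo fun α hα => ?_
  show 2 * (|w (0, α)| * Real.exp (2 * lam u X t α) * px u (t, X t α)) =
    2 * σ * (w (t, X t α) * HT (fun y => w (t, y)) (X t α)) * Real.exp (lam u X t α)
  rw [hσ α hα, ← h.hu t ht, w_along h.cs h.fl, DynE_exp]
  ring

lemma DynE_sN (h : DynE w u X p T) : ∀ α ∈ Ioo 0 p, |w (0, α)| = -1 * w (0, α) := by
  intro α hα
  rw [abs_of_nonpos (h.neg α ⟨hα.1.le, hα.2.le⟩)]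
  ring

lemma DynE_sP (h : DynE w u X p T) : ∀ α ∈ Ioo p π, |w (0, α)| = 1 * w (0, α) := by
  intro α hα
  rw [abs_of_nonneg (h.pos α ⟨hα.1.le, hα.2.le⟩)]
  ring

theorem DynE.EF_eq (h : DynE w u X p T) (t : ℝ) (ht : t ∈ Icc 0 T) :
    ED w u X p π t - ED w u X 0 p t + 1 / 2 * (MD w u X 0 p t + MD w u X p π t) =
      EFE (fun x => w (t, x)) (X t p) := by
  rw [DynE_ED h t ht p π h.p1.le, DynE_ED h t ht 0 p h.p0.le,
    DynE_MD h t ht 0 p (-1) h.p0.le (DynE_sN h), DynE_MD h t ht p π 1 h.p1.le (DynE_sP h),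
    h.X0, h.Xpi]
  unfold EFE
  ring

/-- integrability of the `MD` integrand -/
lemma DynE_MDint (h : DynE w u X p T) (t a b : ℝ) : IntegrableOn
    (fun α => 2 * (|w (0, α)| * Real.exp (2 * lam u X t α) * px u (t, X t α))) (Ioo a b) := by
  have hcX : Continuous fun α => X t α :=
    (Flow.cont h.cs.vel h.fl).comp (continuous_const.prodMk continuous_id)
  have hcl : Continuous fun α => lam u X t α :=
    (lam_cont h.cs.vel h.fl).comp (continuous_const.prodMk continuous_id)
  have hcw : Continuous fun α : ℝ => w (0, α) :=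
    h.cs.sm.continuous.comp (continuous_const.prodMk continuous_id)
  have hcu : Continuous fun α => px u (t, X t α) :=
    (smooth_px u h.cs.vel.sm).continuous.comp (continuous_const.prodMk hcX)
  have hc : Continuous
      (fun α => 2 * (|w (0, α)| * Real.exp (2 * lam u X t α) * px u (t, X t α))) :=
    continuous_const.mul (((continuous_abs.comp hcw).mul
      (Real.continuous_exp.comp (continuous_const.mul hcl))).mul hcu)
  exact (hc.continuousOn.integrableOn_compact (isCompact_Icc (a := a) (b := b))).mono_set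
    Ioo_subset_Icc_self

/-- `JD` minus a multiple of `MD` as an integral over the arc -/
lemma DynE_JD (h : DynE w u X p T) (t : ℝ) (ht : t ∈ Icc 0 T) (z a b κ : ℝ) (ha : Arc w z a b)
    (F : ℝ → ℝ)
    (hF : ∀ α ∈ Ioo a b, |w (0, α)| * gd u X z t α -
      κ * (2 * (|w (0, α)| * Real.exp (2 * lam u X t α) * px u (t, X t α))) =
        F (X t α) * Real.exp (lam u X t α)) :
    JD w u X z a b t - κ * MD w u X a b t = ∫ x in X t a..X t b, F x := by
  have hm := (Flow.mono h.cs.vel h.fl t).monotone ha.pq.le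
  have h1 := ch_arc h.cs h.fl t ht.1 a b F
  rw [intervalIntegral.integral_of_le hm, integral_Ioc_eq_integral_Ioo, h1]
  unfold JD MD
  rw [← integral_const_mul, ← integral_sub (JD_integrable h.cs h.fl ha t)
    ((DynE_MDint h t a b).const_mul κ)]
  exact setIntegral_congr_fun measurableSet_Ioo fun α hα => hF α hα

lemma DynE_ct {ξ : ℝ} (h0 : 0 < ξ) (h1 : ξ < π) :
    ph ξ = Pc ξ + 1 / 4 ∧ ph ξ = Pk ξ ∧ dph ξ = dPh ξ := by
  have h2 := DynL_ct h0 h1
  refine ⟨?_, ?_, h2.2⟩
  · rw [h2.1]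
    unfold Ph Pc
    ring
  · rw [h2.1]
    unfold Ph Pk
    ring

theorem DynE.TF_eq (h : DynE w u X p T) (t : ℝ) (ht : t ∈ Icc 0 T) :
    JD w u X p 0 p t + JD w u X p p π t - 1 / 4 * (MD w u X 0 p t + MD w u X p π t) =
      TF (fun x => w (t, x)) (X t p) := by
  have hm := Flow.mono h.cs.vel h.fl t
  have hN := DynE_JD h t ht p 0 p (1 / 4) h.arcN
    (fun x => -w (t, x) * (2 * HT (fun y => w (t, y)) x * Pc (X t p - x) -
      (UU (fun y => w (t, y)) x - UU (fun y => w (t, y)) (X t p)) * dPh (X t p - x)))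
    (fun α hα => by
      have hx0 : 0 < X t α := by
        have h2 := hm hα.1
        rwa [h.X0] at h2
      have hx1 : 0 < X t p - X t α := sub_pos.2 (hm hα.2)
      have hx2 : X t p - X t α < π := by linarith [(h.Xp t).2]
      have hab : |X t α - X t p| = X t p - X t α := by
        rw [abs_sub_comm, abs_of_pos hx1]
      show |w (0, α)| * gd u X p t α -
        1 / 4 * (2 * (|w (0, α)| * Real.exp (2 * lam u X t α) * px u (t, X t α))) =
        -w (t, X t α) * (2 * HT (fun y => w (t, y)) (X t α) * Pc (X t p - X t α) -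
          (UU (fun y => w (t, y)) (X t α) - UU (fun y => w (t, y)) (X t p)) *
            dPh (X t p - X t α)) * Real.exp (lam u X t α)
      unfold gd
      rw [hab, if_neg (not_lt.2 hα.2.le), DynE_sN h α hα, (DynE_ct hx1 hx2).1,
        (DynE_ct hx1 hx2).2.2, DynE_UU h t ht, DynE_UU h t ht, ← h.hu t ht,
        w_along h.cs h.fl, DynE_exp]
      ring)
  have hP := DynE_JD h t ht p p π (1 / 4) h.arcP
    (fun x => w (t, x) * (2 * HT (fun y => w (t, y)) x * Pc (x - X t p) +
      (UU (fun y => w (t, y)) x - UU (fun y => w (t, y)) (X t p)) * dPh (x - X t p)))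
    (fun α hα => by
      have hx0 : X t α < π := by
        have h2 := hm hα.2
        rwa [h.Xpi] at h2
      have hx1 : 0 < X t α - X t p := sub_pos.2 (hm hα.1)
      have hx2 : X t α - X t p < π := by linarith [(h.Xp t).1]
      have hab : |X t α - X t p| = X t α - X t p := abs_of_pos hx1
      show |w (0, α)| * gd u X p t α -
        1 / 4 * (2 * (|w (0, α)| * Real.exp (2 * lam u X t α) * px u (t, X t α))) =
        w (t, X t α) * (2 * HT (fun y => w (t, y)) (X t α) * Pc (X t α - X t p) +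
          (UU (fun y => w (t, y)) (X t α) - UU (fun y => w (t, y)) (X t p)) *
            dPh (X t α - X t p)) * Real.exp (lam u X t α)
      unfold gd
      rw [hab, if_pos hα.1, DynE_sP h α hα, (DynE_ct hx1 hx2).1,
        (DynE_ct hx1 hx2).2.2, DynE_UU h t ht, DynE_UU h t ht, ← h.hu t ht,
        w_along h.cs h.fl, DynE_exp]
      ring)
  rw [h.X0] at hN
  rw [h.Xpi] at hP
  unfold TF
  rw [← hN, ← hP]
  ring

theorem DynE.BN_eq (h : DynE w u X p T) (t : ℝ) (ht : t ∈ Icc 0 T) :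
    JD w u X 0 0 p t = -BN (fun x => w (t, x)) (X t p) := by
  have hm := Flow.mono h.cs.vel h.fl t
  have hN := DynE_JD h t ht 0 0 p 0 h.arc0
    (fun x => -(w (t, x) * (2 * HT (fun y => w (t, y)) x * Pk x +
      UU (fun y => w (t, y)) x * dPh x)))
    (fun α hα => by
      have hx0 : 0 < X t α := by
        have h2 := hm hα.1
        rwa [h.X0] at h2
      have hx1 : X t α < π := (hm hα.2).trans (h.Xp t).2
      show |w (0, α)| * gd u X 0 t α -
        0 * (2 * (|w (0, α)| * Real.exp (2 * lam u X t α) * px u (t, X t α))) =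
        -(w (t, X t α) * (2 * HT (fun y => w (t, y)) (X t α) * Pk (X t α) +
          UU (fun y => w (t, y)) (X t α) * dPh (X t α))) * Real.exp (lam u X t α)
      unfold gd
      rw [h.X0, sub_zero, abs_of_pos hx0, if_pos hα.1, DynE_u0 h t, sub_zero, DynE_sN h α hα,
        (DynE_ct hx0 hx1).2.1, (DynE_ct hx0 hx1).2.2, DynE_UU h t ht, ← h.hu t ht,
        w_along h.cs h.fl, DynE_exp]
      ring)
  rw [h.X0] at hN
  unfold BN
  rw [← intervalIntegral.integral_neg, ← hN]
  ring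

theorem DynE.BP_eq (h : DynE w u X p T) (t : ℝ) (ht : t ∈ Icc 0 T) :
    JD w u X π p π t = -BP (fun x => w (t, x)) (X t p) := by
  have hm := Flow.mono h.cs.vel h.fl t
  have hP := DynE_JD h t ht π p π 0 h.arcPi
    (fun x => -(-w (t, x) * (2 * HT (fun y => w (t, y)) x * Pk (π - x) -
      UU (fun y => w (t, y)) x * dPh (π - x))))
    (fun α hα => by
      have hx0 : 0 < π - X t α := by
        have h2 := hm hα.2
        rw [h.Xpi] at h2
        linarith
      have hx1 : π - X t α < π := by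
        have h2 := hm hα.1
        linarith [(h.Xp t).1]
      have hab : |X t α - π| = π - X t α := by
        rw [abs_sub_comm, abs_of_pos hx0]
      show |w (0, α)| * gd u X π t α -
        0 * (2 * (|w (0, α)| * Real.exp (2 * lam u X t α) * px u (t, X t α))) =
        -(-w (t, X t α) * (2 * HT (fun y => w (t, y)) (X t α) * Pk (π - X t α) -
          UU (fun y => w (t, y)) (X t α) * dPh (π - X t α))) * Real.exp (lam u X t α)
      unfold gd
      rw [h.Xpi, hab, if_neg (not_lt.2 hα.2.le), DynE_upi h t, sub_zero, DynE_sP h α hα,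
        (DynE_ct hx0 hx1).2.1, (DynE_ct hx0 hx1).2.2, DynE_UU h t ht, ← h.hu t ht,
        w_along h.cs h.fl, DynE_exp]
      ring)
  rw [h.Xpi] at hP
  unfold BP
  rw [← intervalIntegral.integral_neg, ← hP]
  ring

/-- symmetry of the label integrals -/
theorem DynE.lma_sq (h : DynE w u X p T) (t α : ℝ) :
    lam u X t (-α) = lam u X t α ∧ lma u X t (-α) ^ 2 = lma u X t α ^ 2 := by
  have he := DynL_even h.ou
  have ho := DynL_odd he
  have hl : ∀ s, lam u X s (-α) = lam u X s α := by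
    intro s
    unfold lam
    refine intervalIntegral.integral_congr fun r _ => ?_
    show px u (r, X r (-α)) = px u (r, X r α)
    rw [h.Xodd, he]
  refine ⟨hl t, ?_⟩
  have h2 : lma u X t (-α) = -lma u X t α := by
    unfold lma
    rw [← intervalIntegral.integral_neg]
    refine intervalIntegral.integral_congr fun r _ => ?_
    show px (px u) (r, X r (-α)) * Real.exp (lam u X r (-α)) =
      -(px (px u) (r, X r α) * Real.exp (lam u X r α))
    rw [h.Xodd, ho, hl]
    ring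
  rw [h2]
  ring

theorem DynE.ZZ_split (h : DynE w u X p T) (t : ℝ) :
    ZZ w u X 0 (2 * π) t = 2 * ZZ w u X 0 p t + 2 * ZZ w u X p π t := by
  set g : ℝ → ℝ := fun α => |w (0, α)| * lma u X t α ^ 2 with hg
  have hcw : Continuous fun α : ℝ => w (0, α) :=
    h.cs.sm.continuous.comp (continuous_const.prodMk continuous_id)
  have hcm : Continuous fun α => lma u X t α :=
    (lma_cont h.cs.vel h.fl).comp (continuous_const.prodMk continuous_id)
  have hc : Continuous g := (continuous_abs.comp hcw).mul (hcm.pow 2)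
  have hi : ∀ a b : ℝ, IntervalIntegrable g volume a b := fun a b => hc.intervalIntegrable a b
  have hZ : ∀ a b : ℝ, a ≤ b → ZZ w u X a b t = ∫ α in a..b, g α := by
    intro a b hab
    unfold ZZ
    rw [intervalIntegral.integral_of_le hab, integral_Ioc_eq_integral_Ioo]
  have hper : ∀ α, g (α + 2 * π) = g α := by
    intro α
    show |w (0, α + 2 * π)| * lma u X t (α + 2 * π) ^ 2 = |w (0, α)| * lma u X t α ^ 2
    rw [h.cs.per, lma_per h.cs.vel h.fl]
  have heven : ∀ α, g (-α) = g α := by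
    intro α
    show |w (0, -α)| * lma u X t (-α) ^ 2 = |w (0, α)| * lma u X t α ^ 2
    rw [h.ow, abs_neg, (h.lma_sq t α).2]
  have h1 : (∫ α in π..(2 * π), g α) = ∫ α in (0:ℝ)..π, g α := by
    have e1 : (∫ α in (-π)..0, g (α + 2 * π)) = ∫ α in (-π + 2 * π)..(0 + 2 * π), g α :=
      intervalIntegral.integral_comp_add_right g (2 * π)
    have e2 : (∫ α in (-π)..0, g (α + 2 * π)) = ∫ α in (-π)..0, g α :=
      intervalIntegral.integral_congr fun α _ => hper α
    have e3 : (∫ α in (0:ℝ)..π, g (-α)) = ∫ α in (-π)..(-0), g α :=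
      intervalIntegral.integral_comp_neg g
    have e4 : (∫ α in (0:ℝ)..π, g (-α)) = ∫ α in (0:ℝ)..π, g α :=
      intervalIntegral.integral_congr fun α _ => heven α
    have e5 : -π + 2 * π = π := by ring
    have e6 : (0:ℝ) + 2 * π = 2 * π := by ring
    rw [e5, e6] at e1
    rw [neg_zero] at e3
    rw [← e1, e2, ← e3, e4]
  have h2 : (∫ α in (0:ℝ)..(2 * π), g α) = (∫ α in (0:ℝ)..π, g α) + ∫ α in π..(2 * π), g α :=
    (intervalIntegral.integral_add_adjacent_intervals (hi _ _) (hi _ _)).symm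
  have h3 : (∫ α in (0:ℝ)..π, g α) = (∫ α in (0:ℝ)..p, g α) + ∫ α in p..π, g α :=
    (intervalIntegral.integral_add_adjacent_intervals (hi _ _) (hi _ _)).symm
  rw [hZ 0 (2 * π) (by linarith [Real.pi_pos]), hZ 0 p h.p0.le, hZ p π h.p1.le, h2, h1, h3]
  ring

end Pool.Agent.H90.DE
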