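import Pool.Agent.H90.DE.DynE

/-!
# DE (copy of DC job 16): bound of the velocity gradient (uses the stubs of `DynL.lean`)

`B ≥ |px w (0,·)|`, `Z = ZZ w u X 0 (2π) t`, `W = w(t,·)`, `M` any bound of `|W|`, `t ∈ [0,T]`.
* `hoelder`: for labels `α ≤ β ≤ α + 2π`: `|W(X β) - W(X α)| ≤ ∫_α^β |px w (t,X)| e^{lam}`
  (`w(t,X t ·)` has the derivative `px w (t,X) e^{lam}`), `px w (t,X) = px w(0,α) + w(0,α) lma` (`wx_along`), so
  it is `≤ B (Xβ - Xα) + ∫_α^β |w(0,·)| |lma| e^{lam}
      ≤ B (Xβ - Xα) + (∫_α^β |w(0,·)| lma²)^{1/2} (∫_α^β |w(0,·)| e^{2 lam})^{1/2}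
      ≤ B (Xβ - Xα) + √(Z M (Xβ - Xα))`  (`|w(0,·)| e^{lam} = |W(X)| ≤ M`, `∫_α^β e^{lam} = Xβ - Xα`;
  the integrand of `Z` is `2π`-periodic, `w` and `lma` being periodic in the label).
  Cauchy-Schwarz may be replaced by `a b ≤ (ε a² + b²/ε)/2` for every `ε > 0`:
  `|W(x) - W(y)| ≤ B |x-y| + (ε Z + M |x-y|/ε)/2` and `ε = √(M|x-y|/Z)` (`Z = 0` by a limit).
* `|W x| ≤ M0 := 4πB + 2πZ`: `W 0 = 0`, so `|W x| ≤ 2πB + √(2πZM)`, `√(2πZM) ≤ M/2 + πZ`, with
  `M = max |W|` (attained).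
* `HT W x = (1/2π) ∫_0^π (W(x-s) - W(x+s)) cot(s/2) ds`, `cot(s/2) ≤ 2/s` (`cot_le`):
  `|HT W x| ≤ (1/2π) ∫_0^π (2Bs + √(2ZMs)) (2/s) ds = (1/2π)(4πB + 4√(2πZM)) ≤ C (B + Z + M)`.
-/

set_option autoImplicit false
open Real Set MeasureTheory Filter Topology

namespace Pool.Agent.H90.DE
open Pool.Agent.H45.FL Pool.Agent.H51.DG Pool.Agent.H45.DY Pool.Agent.H90.DC

/-- optimisation of the parameter -/
private theorem Vel_opt {D Z P : ℝ} (hZ : 0 ≤ Z) (hP : 0 ≤ P)
    (h : ∀ ε : ℝ, 0 < ε → D ≤ (ε * Z + P / ε) / 2) : D ≤ Real.sqrt (Z * P) := by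
  rcases le_or_gt D 0 with hD | hD
  · exact hD.trans (Real.sqrt_nonneg _)
  · have key : ∀ x : ℝ, 0 ≤ Z * (x * x) + (-(2 * D)) * x + P := by
      intro x
      rcases le_or_gt x 0 with hx | hx
      · have h1 : 0 ≤ Z * (x * x) := mul_nonneg hZ (mul_self_nonneg x)
        have h2 : 0 ≤ D * (-x) := mul_nonneg hD.le (by linarith)
        nlinarith
      · have h1 := h x hx
        have h2 : 2 * D * x ≤ x * Z * x + P := by
          have h3 : D * (2 * x) ≤ (x * Z + P / x) / 2 * (2 * x) :=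
            mul_le_mul_of_nonneg_right h1 (by linarith)
          have h4 : (x * Z + P / x) / 2 * (2 * x) = x * Z * x + P := by
            field_simp
          linarith
        nlinarith
    have h5 := discrim_le_zero key
    unfold discrim at h5
    apply Real.le_sqrt_of_sq_le
    nlinarith

private theorem Vel_int {w u : ℝ × ℝ → ℝ} {X : ℝ → ℝ → ℝ} {p T : ℝ} (h : DynE w u X p T)
    (t : ℝ) : Continuous fun α => |w (0, α)| * lma u X t α ^ 2 := by
  have h1 : Continuous fun α => w (0, α) :=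
    h.cs.sm.continuous.comp (continuous_const.prodMk continuous_id)
  have h2 : Continuous fun α => lma u X t α :=
    (lma_cont h.cs.vel h.fl).comp (continuous_const.prodMk continuous_id)
  exact h1.abs.mul (h2.pow 2)

private theorem Vel_ZZ {w u : ℝ × ℝ → ℝ} {X : ℝ → ℝ → ℝ} {p T : ℝ} (h : DynE w u X p T)
    (t a : ℝ) : ∫ α in a..(a + 2 * π), |w (0, α)| * lma u X t α ^ 2 =
      ZZ w u X 0 (2 * π) t := by
  have hper : Function.Periodic (fun α => |w (0, α)| * lma u X t α ^ 2) (2 * π) := by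
    intro α
    show |w (0, α + 2 * π)| * lma u X t (α + 2 * π) ^ 2 = |w (0, α)| * lma u X t α ^ 2
    rw [h.cs.per, lma_per h.cs.vel h.fl]
  have h1 := hper.intervalIntegral_add_eq a 0
  rw [h1, zero_add]
  unfold ZZ
  rw [intervalIntegral.integral_of_le (by positivity), integral_Ioc_eq_integral_Ioo]

private theorem Vel_ZZ_nonneg {w u : ℝ × ℝ → ℝ} {X : ℝ → ℝ → ℝ} (a b t : ℝ) :
    0 ≤ ZZ w u X a b t := by
  unfold ZZ
  exact integral_nonneg fun α => mul_nonneg (abs_nonneg _) (sq_nonneg _)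

private theorem Vel_eps {w u : ℝ × ℝ → ℝ} {X : ℝ → ℝ → ℝ} {p T B M : ℝ} (h : DynE w u X p T)
    (hB : ∀ x, |px w (0, x)| ≤ B) {t : ℝ} (ht : 0 ≤ t) (hM : ∀ x, |w (t, x)| ≤ M) {x y : ℝ}
    (hxy : x ≤ y) (hyx : y ≤ x + 2 * π) (ε : ℝ) (hε : 0 < ε) :
    |w (t, y) - w (t, x)| ≤ B * (y - x) +
      (ε * ZZ w u X 0 (2 * π) t + M * (y - x) / ε) / 2 := by
  obtain ⟨a, rfl⟩ := Flow.surj h.cs.vel h.fl t x
  obtain ⟨b, rfl⟩ := Flow.surj h.cs.vel h.fl t y
  have hm := Flow.mono h.cs.vel h.fl t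
  have hab : a ≤ b := hm.le_iff_le.1 hxy
  have hba : b ≤ a + 2 * π := by
    rw [← Flow.per h.cs.vel h.fl] at hyx
    exact hm.le_iff_le.1 hyx
  have cw : Continuous fun α => w (0, α) :=
    h.cs.sm.continuous.comp (continuous_const.prodMk continuous_id)
  have cpx : Continuous fun α => px w (0, α) :=
    (smooth_px w h.cs.sm).continuous.comp (continuous_const.prodMk continuous_id)
  have cl : Continuous fun α => lam u X t α :=
    (lam_cont h.cs.vel h.fl).comp (continuous_const.prodMk continuous_id)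
  have cm : Continuous fun α => lma u X t α :=
    (lma_cont h.cs.vel h.fl).comp (continuous_const.prodMk continuous_id)
  have ce : Continuous fun α => Real.exp (lam u X t α) := Real.continuous_exp.comp cl
  have hder : ∀ α, HasDerivAt (fun β => w (t, X t β))
      ((px w (0, α) + w (0, α) * lma u X t α) * Real.exp (lam u X t α)) α := by
    intro α
    have h1 : HasDerivAt (fun β => w (t, X t β))
        (px w (t, X t α) * Real.exp (lam u X t α)) α :=
      HasDerivAt.comp α (hasDerivAt_px w h.cs.sm t (X t α))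
        (Flow.hasDerivAt_label h.cs.vel h.fl t α ht)
    rw [wx_along h.cs h.fl t α ht] at h1
    exact h1
  have cF : Continuous fun α => (px w (0, α) + w (0, α) * lma u X t α) *
      Real.exp (lam u X t α) := (cpx.add (cw.mul cm)).mul ce
  have e1 : w (t, X t b) - w (t, X t a) = ∫ α in a..b,
      (px w (0, α) + w (0, α) * lma u X t α) * Real.exp (lam u X t α) :=
    (intervalIntegral.integral_eq_sub_of_hasDerivAt (fun α _ => hder α)
      (cF.intervalIntegrable a b)).symm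
  have e2 : X t b - X t a = ∫ α in a..b, Real.exp (lam u X t α) :=
    (intervalIntegral.integral_eq_sub_of_hasDerivAt
      (fun α _ => Flow.hasDerivAt_label h.cs.vel h.fl t α ht)
      (ce.intervalIntegrable a b)).symm
  have cZ := Vel_int h t
  have hpt : ∀ α, |(px w (0, α) + w (0, α) * lma u X t α) * Real.exp (lam u X t α)| ≤
      (B + M / (2 * ε)) * Real.exp (lam u X t α) + ε / 2 * (|w (0, α)| * lma u X t α ^ 2) := by
    intro α
    have hE : 0 < Real.exp (lam u X t α) := Real.exp_pos _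
    have h1 : |w (0, α)| * Real.exp (lam u X t α) ≤ M := by
      have h2 := hM (X t α)
      rw [w_along h.cs h.fl, abs_mul, abs_of_pos hE] at h2
      exact h2
    have h3 : |px w (0, α) + w (0, α) * lma u X t α| ≤ B + |w (0, α)| * |lma u X t α| := by
      have h4 := abs_add_le (px w (0, α)) (w (0, α) * lma u X t α)
      rw [abs_mul (w (0, α))] at h4
      linarith [hB α]
    have h5 : |lma u X t α| * Real.exp (lam u X t α) ≤
        ε / 2 * lma u X t α ^ 2 + Real.exp (lam u X t α) ^ 2 / (2 * ε) := by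
      have h6 : 0 ≤ (ε * |lma u X t α| - Real.exp (lam u X t α)) ^ 2 := sq_nonneg _
      have h7 : |lma u X t α| ^ 2 = lma u X t α ^ 2 := sq_abs _
      have h8 : ε / 2 * lma u X t α ^ 2 + Real.exp (lam u X t α) ^ 2 / (2 * ε) -
          |lma u X t α| * Real.exp (lam u X t α) =
          (ε * |lma u X t α| - Real.exp (lam u X t α)) ^ 2 / (2 * ε) := by
        rw [← h7]
        field_simp
        ring
      have h9 : 0 ≤ (ε * |lma u X t α| - Real.exp (lam u X t α)) ^ 2 / (2 * ε) := by positivity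
      linarith
    rw [abs_mul, abs_of_pos hE]
    have h10 := mul_le_mul_of_nonneg_left h5 (abs_nonneg (w (0, α)))
    have h11 := mul_le_mul_of_nonneg_right h3 hE.le
    have h12 : |w (0, α)| * (Real.exp (lam u X t α) ^ 2 / (2 * ε)) ≤
        M / (2 * ε) * Real.exp (lam u X t α) := by
      have h13 := mul_le_mul_of_nonneg_right h1
        (show 0 ≤ Real.exp (lam u X t α) / (2 * ε) by positivity)
      have h14 : |w (0, α)| * (Real.exp (lam u X t α) ^ 2 / (2 * ε)) =
          |w (0, α)| * Real.exp (lam u X t α) * (Real.exp (lam u X t α) / (2 * ε)) := by ring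
      have h15 : M / (2 * ε) * Real.exp (lam u X t α) =
          M * (Real.exp (lam u X t α) / (2 * ε)) := by ring
      rw [h14, h15]
      exact h13
    have h16 : |w (0, α)| * (ε / 2 * lma u X t α ^ 2) =
        ε / 2 * (|w (0, α)| * lma u X t α ^ 2) := by ring
    nlinarith
  have cR : Continuous fun α => (B + M / (2 * ε)) * Real.exp (lam u X t α) +
      ε / 2 * (|w (0, α)| * lma u X t α ^ 2) :=
    (continuous_const.mul ce).add (continuous_const.mul cZ)
  have h20 : |w (t, X t b) - w (t, X t a)| ≤ ∫ α in a..b,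
      ((B + M / (2 * ε)) * Real.exp (lam u X t α) +
        ε / 2 * (|w (0, α)| * lma u X t α ^ 2)) := by
    rw [e1, ← Real.norm_eq_abs]
    refine intervalIntegral.norm_integral_le_of_norm_le hab ?_ (cR.intervalIntegrable a b)
    refine Filter.Eventually.of_forall fun α _ => ?_
    rw [Real.norm_eq_abs]
    exact hpt α
  have i1 : IntervalIntegrable (fun α => (B + M / (2 * ε)) * Real.exp (lam u X t α)) volume a b :=
    (continuous_const.mul ce).intervalIntegrable a b
  have i2 : IntervalIntegrable (fun α => ε / 2 * (|w (0, α)| * lma u X t α ^ 2)) volume a b :=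
    (continuous_const.mul cZ).intervalIntegrable a b
  rw [intervalIntegral.integral_add i1 i2, intervalIntegral.integral_const_mul,
    intervalIntegral.integral_const_mul, ← e2] at h20
  have h21 : ∫ α in a..b, |w (0, α)| * lma u X t α ^ 2 ≤ ZZ w u X 0 (2 * π) t := by
    rw [← Vel_ZZ h t a]
    refine intervalIntegral.integral_mono_interval le_rfl hab hba ?_
      (cZ.intervalIntegrable _ _)
    exact Filter.Eventually.of_forall fun α => mul_nonneg (abs_nonneg _) (sq_nonneg _)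
  have h22 := mul_le_mul_of_nonneg_left h21 (show 0 ≤ ε / 2 by positivity)
  have h23 : (B + M / (2 * ε)) * (X t b - X t a) = B * (X t b - X t a) +
      M * (X t b - X t a) / ε / 2 := by
    field_simp
  rw [h23] at h20
  linarith

theorem hoelderE {w u : ℝ × ℝ → ℝ} {X : ℝ → ℝ → ℝ} {p T B M : ℝ} (h : DynE w u X p T)
    (hB : ∀ x, |px w (0, x)| ≤ B) {t : ℝ} (ht : t ∈ Icc 0 T) (hM : ∀ x, |w (t, x)| ≤ M) {x y : ℝ}
    (hxy : |x - y| ≤ 2 * π) :
    |w (t, x) - w (t, y)| ≤ B * |x - y| + Real.sqrt (ZZ w u X 0 (2 * π) t * M * |x - y|) := by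
  have hM0 : 0 ≤ M := (abs_nonneg _).trans (hM 0)
  have hZ := Vel_ZZ_nonneg (w := w) (u := u) (X := X) 0 (2 * π) t
  have gen : ∀ x y : ℝ, x ≤ y → y - x ≤ 2 * π → |w (t, y) - w (t, x)| ≤
      B * (y - x) + Real.sqrt (ZZ w u X 0 (2 * π) t * M * (y - x)) := by
    intro x y h1 h2
    have h3 := Vel_opt (D := |w (t, y) - w (t, x)| - B * (y - x)) (Z := ZZ w u X 0 (2 * π) t)
      (P := M * (y - x)) hZ (mul_nonneg hM0 (by linarith)) (fun ε hε => by
        have h4 := Vel_eps h hB ht.1 hM h1 (by linarith) ε hε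
        linarith)
    rw [mul_assoc]
    linarith
  rcases le_total x y with h1 | h1
  · have e : |x - y| = y - x := by rw [abs_sub_comm, abs_of_nonneg (by linarith)]
    rw [e] at hxy ⊢
    rw [abs_sub_comm]
    exact gen x y h1 hxy
  · have e : |x - y| = x - y := abs_of_nonneg (by linarith)
    rw [e] at hxy ⊢
    exact gen y x h1 hxy

private theorem Vel_sq {a b : ℝ} (ha : 0 ≤ a) (hb : 0 ≤ b) :
    Real.sqrt (a * b) ≤ a / 2 + b / 2 := by
  apply Real.sqrt_le_iff.2
  constructor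
  · linarith
  · nlinarith [sq_nonneg (a - b)]

private theorem Vel_w {w u : ℝ × ℝ → ℝ} {X : ℝ → ℝ → ℝ} {p T B : ℝ} (h : DynE w u X p T)
    (hB : ∀ x, |px w (0, x)| ≤ B) {t : ℝ} (ht : t ∈ Icc 0 T) (x : ℝ) :
    |w (t, x)| ≤ 4 * π * B + 2 * π * ZZ w u X 0 (2 * π) t := by
  have hpi := Real.pi_pos
  have cw : Continuous fun x => |w (t, x)| :=
    (h.cs.sm.continuous.comp (continuous_const.prodMk continuous_id)).abs
  obtain ⟨x0, hx0, hmax⟩ := isCompact_Icc.exists_isMaxOn
    (nonempty_Icc.2 (by positivity : (0:ℝ) ≤ 2 * π)) cw.continuousOn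
  have hper : Function.Periodic (fun x => |w (t, x)|) (2 * π) := by
    intro x
    show |w (t, x + 2 * π)| = |w (t, x)|
    rw [h.cs.per]
  have hM : ∀ x, |w (t, x)| ≤ |w (t, x0)| := by
    intro x
    obtain ⟨y, hy, hxy⟩ := hper.exists_mem_Ico₀ (by positivity : (0:ℝ) < 2 * π) x
    have h1 : |w (t, x)| = |w (t, y)| := hxy
    rw [h1]
    exact hmax (Ico_subset_Icc_self hy)
  have h0 : w (t, 0) = 0 := by
    have h1 := h.ow t 0
    rw [neg_zero] at h1
    linarith
  have hb0 : 0 ≤ B := (abs_nonneg _).trans (hB 0)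
  have hZ := Vel_ZZ_nonneg (w := w) (u := u) (X := X) 0 (2 * π) t
  have h2 : |x0 - 0| ≤ 2 * π := by
    rw [sub_zero, abs_of_nonneg hx0.1]
    exact hx0.2
  have h3 := hoelderE h hB ht hM h2
  rw [h0, sub_zero] at h3
  have h4 : Real.sqrt (ZZ w u X 0 (2 * π) t * |w (t, x0)| * |x0 - 0|) ≤
      Real.sqrt ((2 * π * ZZ w u X 0 (2 * π) t) * |w (t, x0)|) := by
    apply Real.sqrt_le_sqrt
    have h5 : ZZ w u X 0 (2 * π) t * |w (t, x0)| * |x0 - 0| ≤
        ZZ w u X 0 (2 * π) t * |w (t, x0)| * (2 * π) :=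
      mul_le_mul_of_nonneg_left h2 (mul_nonneg hZ (abs_nonneg _))
    linarith
  have h6 := Vel_sq (a := 2 * π * ZZ w u X 0 (2 * π) t) (b := |w (t, x0)|) (by positivity)
    (abs_nonneg _)
  have h7 : B * |x0 - 0| ≤ B * (2 * π) := mul_le_mul_of_nonneg_left h2 hb0
  have h8 := hM x
  linarith

private theorem Vel_H {W : ℝ → ℝ} {B Q x : ℝ} (hB : 0 ≤ B) (hQ : 0 ≤ Q)
    (hW : ∀ s ∈ Ioc (0:ℝ) π, |W (x - s) - W (x + s)| ≤ B * (2 * s) + Real.sqrt (Q * (2 * s))) :
    |HT W x| ≤ 2 * B + 2 / π * Real.sqrt (2 * π * Q) := by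
  have hpi := Real.pi_pos
  have hint : IntervalIntegrable (fun s : ℝ => 4 * B + 2 * Real.sqrt (2 * Q) * s ^ (-(1 / 2) : ℝ))
      volume 0 π := by
    apply IntervalIntegrable.add
    · exact intervalIntegrable_const
    · exact (intervalIntegral.intervalIntegrable_rpow' (by norm_num)).const_mul _
  have h1 : |∫ s in (0:ℝ)..π, (W (x - s) - W (x + s)) * (Real.cos (s / 2) / Real.sin (s / 2))| ≤
      ∫ s in (0:ℝ)..π, (4 * B + 2 * Real.sqrt (2 * Q) * s ^ (-(1 / 2) : ℝ)) := by
    rw [← Real.norm_eq_abs]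
    refine intervalIntegral.norm_integral_le_of_norm_le hpi.le ?_ hint
    refine Filter.Eventually.of_forall fun s hs => ?_
    obtain ⟨hc0, hc1⟩ := cot_le hs.1 hs.2
    have hs0 : 0 < s := hs.1
    rw [Real.norm_eq_abs, abs_mul, abs_of_nonneg hc0]
    have h2 := mul_le_mul (hW s hs) hc1 hc0 (by positivity)
    have h3 : Real.sqrt (Q * (2 * s)) = Real.sqrt (2 * Q) * Real.sqrt s := by
      rw [← Real.sqrt_mul (by positivity)]
      congr 1
      ring
    have h4 : s ^ (-(1 / 2) : ℝ) = Real.sqrt s / s := by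
      rw [Real.rpow_neg hs0.le, ← Real.sqrt_eq_rpow, inv_eq_one_div, div_eq_div_iff (by positivity) hs0.ne',
        Real.mul_self_sqrt hs0.le, one_mul]
    rw [h3] at h2
    rw [h4]
    have h5 : (B * (2 * s) + Real.sqrt (2 * Q) * Real.sqrt s) * (2 / s) =
        4 * B + 2 * Real.sqrt (2 * Q) * (Real.sqrt s / s) := by
      field_simp
      ring
    linarith
  have h6 : ∫ s in (0:ℝ)..π, (4 * B + 2 * Real.sqrt (2 * Q) * s ^ (-(1 / 2) : ℝ)) =
      4 * B * π + 4 * Real.sqrt (2 * π * Q) := by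
    rw [intervalIntegral.integral_add intervalIntegrable_const
      ((intervalIntegral.intervalIntegrable_rpow' (by norm_num)).const_mul _),
      intervalIntegral.integral_const, intervalIntegral.integral_const_mul,
      integral_rpow (Or.inl (by norm_num))]
    have h7 : (-(1 / 2) + 1 : ℝ) = 1 / 2 := by norm_num
    rw [h7, Real.zero_rpow (by norm_num), ← Real.sqrt_eq_rpow, smul_eq_mul]
    have h8 : Real.sqrt (2 * π * Q) = Real.sqrt (2 * Q) * Real.sqrt π := by
      rw [← Real.sqrt_mul (by positivity)]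
      congr 1
      ring
    rw [h8]
    ring
  rw [h6] at h1
  unfold HT
  rw [abs_mul, abs_of_pos (by positivity : (0:ℝ) < 1 / (2 * π))]
  have h9 := mul_le_mul_of_nonneg_left h1 (by positivity : (0:ℝ) ≤ 1 / (2 * π))
  refine h9.trans (le_of_eq ?_)
  field_simp
  ring

theorem vel_leE {w u : ℝ × ℝ → ℝ} {X : ℝ → ℝ → ℝ} {p T B : ℝ} (h : DynE w u X p T)
    (hB : ∀ x, |px w (0, x)| ≤ B) {t : ℝ} (ht : t ∈ Icc 0 T) (x : ℝ) :
    |w (t, x)| ≤ 4 * π * (B + ZZ w u X 0 (2 * π) t) ∧
      |px u (t, x)| ≤ 100 * (B + ZZ w u X 0 (2 * π) t) := by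
  have hpi := Real.pi_pos
  have hb0 : 0 ≤ B := (abs_nonneg _).trans (hB 0)
  have hZ := Vel_ZZ_nonneg (w := w) (u := u) (X := X) 0 (2 * π) t
  set Z := ZZ w u X 0 (2 * π) t with hZd
  have hM : ∀ x, |w (t, x)| ≤ 4 * π * B + 2 * π * Z := fun x => Vel_w h hB ht x
  constructor
  · have h1 := hM x
    have h2 : 0 ≤ π * Z := by positivity
    nlinarith
  · rw [h.hu t ht x]
    have h3 := Vel_H (W := fun y => w (t, y)) (B := B) (Q := Z * (4 * π * B + 2 * π * Z))
      (x := x) hb0 (by positivity) (fun s hs => by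
        have e : |x - s - (x + s)| = 2 * s := by
          rw [show x - s - (x + s) = -(2 * s) by ring, abs_neg, abs_of_pos (by linarith [hs.1])]
        have h4 := hoelderE h hB ht hM (x := x - s) (y := x + s) (by rw [e]; linarith [hs.2])
        rw [e] at h4
        exact h4)
    have h5 : Real.sqrt (2 * π * (Z * (4 * π * B + 2 * π * Z))) ≤
        (2 * π * Z) / 2 + (4 * π * B + 2 * π * Z) / 2 := by
      rw [← mul_assoc]
      exact Vel_sq (by positivity) (by positivity)
    have h6 : 2 / π * Real.sqrt (2 * π * (Z * (4 * π * B + 2 * π * Z))) ≤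
        2 / π * ((2 * π * Z) / 2 + (4 * π * B + 2 * π * Z) / 2) :=
      mul_le_mul_of_nonneg_left h5 (by positivity)
    have h7 : 2 / π * ((2 * π * Z) / 2 + (4 * π * B + 2 * π * Z) / 2) = 4 * B + 4 * Z := by
      field_simp
      ring
    linarith

end Pool.Agent.H90.DE
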