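import Pool.Agent.H90.DE.MainE
import Pool.Agent.H90.DC.MainC
import Pool.Agent.H90.DC.Tr
import Pool.Agent.H51.DG.FD
import Pool.Agent.H45.DY.KFold

/-!
# The merged theorem: smooth odd data with at most one sign change in the half period
-/

set_option autoImplicit false
open Real Set MeasureTheory Filter Topology

namespace Pool.Agent.H90.DE
open Pool.Agent.H45.FL Pool.Agent.H51.DG Pool.Agent.H45.DY Pool.Agent.H90.DC

lemma mean_odd {w0 : ℝ → ℝ} (per : Function.Periodic w0 (2 * π)) (odd : ∀ x, w0 (-x) = -w0 x) :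
    ∫ x in (0:ℝ)..(2 * π), w0 x = 0 := by
  have h1 := per.intervalIntegral_add_eq (-π) 0
  rw [zero_add, show -π + 2 * π = π by ring] at h1
  rw [← h1]
  have h2 : ∫ x in (-π)..π, w0 (-x) = ∫ x in (-π)..π, w0 x := by
    rw [intervalIntegral.integral_comp_neg, neg_neg]
  have h3 : ∫ x in (-π)..π, w0 (-x) = -∫ x in (-π)..π, w0 x := by
    rw [← intervalIntegral.integral_neg]
    exact intervalIntegral.integral_congr fun x _ => odd x
  linarith

/-- odd data of one sign on `(0,π)` (from the theorem for two sign changes) -/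
theorem mainS (w0 : ℝ → ℝ) (smooth : ContDiff ℝ ((⊤ : ℕ∞) : WithTop ℕ∞) w0)
    (per : Function.Periodic w0 (2 * π)) (odd : ∀ x, w0 (-x) = -w0 x)
    (sgn : (∀ x ∈ Icc (0:ℝ) π, 0 ≤ w0 x) ∨ ∀ x ∈ Icc (0:ℝ) π, w0 x ≤ 0) : GlobalSmooth w0 := by
  have hpi := Real.pi_pos
  have hr : ∀ x, w0 x = -w0 (2 * π - x) := by
    intro x
    have h1 := per (-x)
    rw [show -x + 2 * π = 2 * π - x by ring] at h1
    rw [h1, odd, neg_neg]
  rcases sgn with h | h
  · refine main w0 (-π) 0 ⟨smooth, per, mean_odd per odd, by linarith, by linarith, ?_, ?_⟩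
    · intro x hx
      have h1 := h (-x) ⟨by linarith [hx.2], by linarith [hx.1]⟩
      rw [odd] at h1
      linarith
    · intro x hx
      exact h x ⟨hx.1, by linarith [hx.2]⟩
  · refine main w0 0 π ⟨smooth, per, mean_odd per odd, hpi, by linarith, ?_, ?_⟩
    · exact fun x hx => h x hx
    · intro x hx
      have h1 := h (2 * π - x) ⟨by linarith [hx.2], by linarith [hx.1]⟩
      rw [hr x]
      linarith

/-- smooth odd data with at most one sign change in `(0,π)` -/
theorem oneSign (w0 : ℝ → ℝ) (p : ℝ) (smooth : ContDiff ℝ ((⊤ : ℕ∞) : WithTop ℕ∞) w0)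
    (per : Function.Periodic w0 (2 * π)) (odd : ∀ x, w0 (-x) = -w0 x)
    (p0 : 0 ≤ p) (p1 : p ≤ π)
    (sgn : ((∀ x ∈ Icc (0:ℝ) p, 0 ≤ w0 x) ∧ ∀ x ∈ Icc p π, w0 x ≤ 0) ∨
      ((∀ x ∈ Icc (0:ℝ) p, w0 x ≤ 0) ∧ ∀ x ∈ Icc p π, 0 ≤ w0 x)) : GlobalSmooth w0 := by
  rcases p0.eq_or_lt with h0 | h0
  · subst h0
    rcases sgn with h | h
    · exact mainS w0 smooth per odd (Or.inr h.2)
    · exact mainS w0 smooth per odd (Or.inl h.2)
  rcases p1.eq_or_lt with h1 | h1
  · subst h1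
    rcases sgn with h | h
    · exact mainS w0 smooth per odd (Or.inl h.1)
    · exact mainS w0 smooth per odd (Or.inr h.1)
  rcases sgn with h | h
  · exact mainC w0 p ⟨smooth, per, odd, h0, h1, h.1, h.2⟩
  · exact mainE w0 p ⟨smooth, per, odd, h0, h1, h.1, h.2⟩

end Pool.Agent.H90.DE
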